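import Pool.Agent.Helper44.BrunHooley

/-!
# The Brun-Hooley sieve with error terms growing with the number of conditions

This is `Helper44.brun_hooley` with the hypothesis on the counting function weakened to
`|count - main| ≤ E * κ ^ |I|`, as needed when several residue classes are removed per prime.
-/

set_option autoImplicit false
set_option linter.unusedSectionVars false

open Finset

namespace Pool.Agent.Helper96.CPAP

open Pool.Agent.Helper44

variable {ι : Type*} [DecidableEq ι] {α : Type*}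

open Classical in
theorem expand_blocksK {t : ℕ} (Ω : Finset α) (occ : ι → α → Prop)
    (B : Fin t → Finset ι) (hB : ∀ i j, i ≠ j → Disjoint (B i) (B j)) (x : ι → ℝ) (X E κ : ℝ)
    (hE : 0 ≤ E) (hκ : 1 ≤ κ)
    (hcnt : ∀ I : Finset ι, I ⊆ Finset.univ.biUnion B →
      |evCount Ω (fun ω => ∀ i ∈ I, occ i ω) - X * ∏ i ∈ I, x i| ≤ E * κ ^ I.card)
    (c : Fin t → Finset ι → ℝ) (S : Fin t → Finset (Finset ι)) (hS : ∀ j, ∀ I ∈ S j, I ⊆ B j)
    (hc : ∀ j I, |c j I| ≤ 1) :
    |∑ ω ∈ Ω, ∏ j, ∑ I ∈ S j, c j I * ∏ i ∈ I, ind occ ω i -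
      X * ∏ j, ∑ I ∈ S j, c j I * ∏ i ∈ I, x i| ≤ E * ∏ j, ∑ I ∈ S j, κ ^ I.card := by
  have hprod : ∀ (y : ι → ℝ), ∏ j, ∑ I ∈ S j, c j I * ∏ i ∈ I, y i =
      ∑ f ∈ Fintype.piFinset S, (∏ j, c j (f j)) * ∏ i ∈ Finset.univ.biUnion f, y i := by
    intro y
    rw [Finset.prod_univ_sum]
    apply Finset.sum_congr rfl
    intro f hf
    rw [Fintype.mem_piFinset] at hf
    rw [Finset.prod_mul_distrib, Finset.prod_biUnion]
    intro i _ j _ hij
    exact Finset.disjoint_of_subset_left (hS i _ (hf i))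
      (Finset.disjoint_of_subset_right (hS j _ (hf j)) (hB i j hij))
  simp_rw [hprod]
  rw [Finset.sum_comm, Finset.mul_sum, ← Finset.sum_sub_distrib]
  have hterm : ∀ f ∈ Fintype.piFinset S,
      |∑ ω ∈ Ω, (∏ j, c j (f j)) * ∏ i ∈ Finset.univ.biUnion f, ind occ ω i -
        X * ((∏ j, c j (f j)) * ∏ i ∈ Finset.univ.biUnion f, x i)| ≤
        E * ∏ j, κ ^ (f j).card := by
    intro f hf
    rw [Fintype.mem_piFinset] at hf
    have hsub : Finset.univ.biUnion f ⊆ Finset.univ.biUnion B := by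
      intro i hi
      rw [Finset.mem_biUnion] at hi ⊢
      obtain ⟨j, hj, hij⟩ := hi
      exact ⟨j, hj, hS j _ (hf j) hij⟩
    have h1 := hcnt _ hsub
    have h2 : ∑ ω ∈ Ω, (∏ j, c j (f j)) * ∏ i ∈ Finset.univ.biUnion f, ind occ ω i =
        (∏ j, c j (f j)) * evCount Ω (fun ω => ∀ i ∈ Finset.univ.biUnion f, occ i ω) := by
      rw [← Finset.mul_sum, evCount_eq_sum]
      simp_rw [prod_ind]
    rw [h2]
    have h3 : (∏ j, c j (f j)) * evCount Ω (fun ω => ∀ i ∈ Finset.univ.biUnion f, occ i ω) -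
        X * ((∏ j, c j (f j)) * ∏ i ∈ Finset.univ.biUnion f, x i) =
        (∏ j, c j (f j)) * (evCount Ω (fun ω => ∀ i ∈ Finset.univ.biUnion f, occ i ω) -
            X * ∏ i ∈ Finset.univ.biUnion f, x i) := by ring
    rw [h3, abs_mul]
    have h4 : |∏ j, c j (f j)| ≤ 1 := by
      rw [Finset.abs_prod]
      exact Finset.prod_le_one (fun _ _ => abs_nonneg _) (fun j _ => hc j _)
    have h5 : κ ^ (Finset.univ.biUnion f).card ≤ ∏ j, κ ^ (f j).card := by
      rw [Finset.prod_pow_eq_pow_sum]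
      exact pow_le_pow_right₀ hκ Finset.card_biUnion_le
    calc _ ≤ 1 * (E * κ ^ (Finset.univ.biUnion f).card) :=
          mul_le_mul h4 h1 (abs_nonneg _) (by norm_num)
      _ = E * κ ^ (Finset.univ.biUnion f).card := one_mul _
      _ ≤ _ := mul_le_mul_of_nonneg_left h5 hE
  calc |∑ f ∈ Fintype.piFinset S,
      (∑ ω ∈ Ω, (∏ j, c j (f j)) * ∏ i ∈ Finset.univ.biUnion f, ind occ ω i -
        X * ((∏ j, c j (f j)) * ∏ i ∈ Finset.univ.biUnion f, x i))|
      ≤ ∑ f ∈ Fintype.piFinset S, E * ∏ j, κ ^ (f j).card := (Finset.abs_sum_le_sum_abs _ _).trans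
        (Finset.sum_le_sum hterm)
    _ = E * ∏ j, ∑ I ∈ S j, κ ^ I.card := by
        rw [Finset.prod_univ_sum, Finset.mul_sum]

theorem sum_pow_powerset_filter_le (B : Finset ι) (m : ℕ) (κ : ℝ) (hκ : 0 ≤ κ) :
    ∑ I ∈ B.powerset.filter (fun I => I.card ≤ m), κ ^ I.card ≤ (κ * (B.card : ℝ) + 1) ^ m := by
  have h1 : ∑ I ∈ B.powerset.filter (fun I => I.card ≤ m), κ ^ I.card =
      ∑ j ∈ range (m + 1), (B.card.choose j : ℝ) * κ ^ j := by
    have : B.powerset.filter (fun I => I.card ≤ m) =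
        (range (m + 1)).biUnion (fun j => B.powersetCard j) := by
      ext I
      simp only [Finset.mem_filter, Finset.mem_powerset, Finset.mem_biUnion, Finset.mem_range,
        Finset.mem_powersetCard]
      constructor
      · rintro ⟨h, h'⟩; exact ⟨I.card, by omega, h, rfl⟩
      · rintro ⟨j, hj, h, rfl⟩; exact ⟨h, by omega⟩
    rw [this, Finset.sum_biUnion]
    · apply Finset.sum_congr rfl
      intro j _
      have h2 : ∑ I ∈ B.powersetCard j, κ ^ I.card = ∑ I ∈ B.powersetCard j, κ ^ j := by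
        apply Finset.sum_congr rfl
        intro I hI
        rw [(Finset.mem_powersetCard.mp hI).2]
      rw [h2, Finset.sum_const, Finset.card_powersetCard, nsmul_eq_mul]
    · intro i _ j _ hij
      rw [Function.onFun, Finset.disjoint_left]
      intro I hI hJ
      exact hij ((Finset.mem_powersetCard.mp hI).2.symm.trans (Finset.mem_powersetCard.mp hJ).2)
  rw [h1, add_pow]
  apply Finset.sum_le_sum
  intro j hj
  have hj' : j ≤ m := by rw [Finset.mem_range] at hj; omega
  have h2 : (B.card.choose j : ℝ) ≤ (B.card : ℝ) ^ j := by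
    exact_mod_cast Nat.choose_le_pow B.card j
  have h3 : (1 : ℝ) ≤ (m.choose j : ℝ) := by
    exact_mod_cast Nat.choose_pos hj'
  have h4 : (0 : ℝ) ≤ (κ * (B.card : ℝ)) ^ j := by positivity
  rw [one_pow, mul_one]
  calc (B.card.choose j : ℝ) * κ ^ j ≤ (B.card : ℝ) ^ j * κ ^ j :=
        mul_le_mul_of_nonneg_right h2 (by positivity)
    _ = (κ * (B.card : ℝ)) ^ j := by rw [mul_pow]; ring
    _ ≤ (κ * (B.card : ℝ)) ^ j * (m.choose j : ℝ) := le_mul_of_one_le_right h4 h3

/-- The Brun-Hooley sieve, raw form. -/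
theorem brun_hooley_rawK {t : ℕ} (Ω : Finset α) (occ : ι → α → Prop)
    (B : Fin t → Finset ι) (hB : ∀ i j, i ≠ j → Disjoint (B i) (B j)) (x : ι → ℝ) (X E κ : ℝ)
    (hE : 0 ≤ E) (hκ : 1 ≤ κ)
    (hcnt : ∀ I : Finset ι, I ⊆ Finset.univ.biUnion B →
      |evCount Ω (fun ω => ∀ i ∈ I, occ i ω) - X * ∏ i ∈ I, x i| ≤ E * κ ^ I.card)
    (m : Fin t → ℕ) (hm : ∀ j, Even (m j)) :
    evCount Ω (fun ω => ∀ j, ∀ i ∈ B j, ¬ occ i ω) ≤
        X * ∏ j, tr (B j) (m j) x + E * ∏ j, (κ * ((B j).card : ℝ) + 1) ^ (m j + 1) ∧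
    X * (∏ j, tr (B j) (m j) x -
        ∑ l, ∏ j, (if j = l then es (B l) (m l + 1) x else tr (B j) (m j) x)) -
      E * ((t + 1) * ∏ j, (κ * ((B j).card : ℝ) + 1) ^ (m j + 1)) ≤
      evCount Ω (fun ω => ∀ j, ∀ i ∈ B j, ¬ occ i ω) := by
  classical
  have hκ0 : 0 ≤ κ := by linarith
  have hcard : evCount Ω (fun ω => ∀ j, ∀ i ∈ B j, ¬ occ i ω) =
      ∑ ω ∈ Ω, ∏ j, ∏ i ∈ B j, (1 - ind occ ω i) := by
    rw [evCount_eq_sum]
    simp_rw [prod_one_sub_ind, Finset.prod_ite_zero]
    simp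
  have hN : ∀ j, 1 ≤ (κ * ((B j).card : ℝ) + 1) := fun j => by
    have : (0 : ℝ) ≤ κ * ((B j).card : ℝ) := by positivity
    linarith
  have hPT : ∀ ω, ∀ j, ∏ i ∈ B j, (1 - ind occ ω i) ≤ tr (B j) (m j) (ind occ ω) := fun ω j =>
    prod_le_tr_even (B j) (ind occ ω) (fun i _ => ind_mem occ ω i) (m j) (hm j)
  have hP0 : ∀ ω, ∀ j, 0 ≤ ∏ i ∈ B j, (1 - ind occ ω i) := fun ω j =>
    Finset.prod_nonneg fun i _ => by linarith [(ind_mem occ ω i).2]
  have hTP : ∀ ω, ∀ j, tr (B j) (m j) (ind occ ω) - ∏ i ∈ B j, (1 - ind occ ω i) ≤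
      es (B j) (m j + 1) (ind occ ω) := fun ω j => by
    have := tr_even_le (B j) (ind occ ω) (fun i _ => ind_mem occ ω i) (m j) (hm j)
    linarith
  -- main expansion
  have hmain : |∑ ω ∈ Ω, ∏ j, tr (B j) (m j) (ind occ ω) - X * ∏ j, tr (B j) (m j) x| ≤
      E * ∏ j, (κ * ((B j).card : ℝ) + 1) ^ (m j + 1) := by
    simp_rw [tr_eq_sum_filter]
    refine (expand_blocksK Ω occ B hB x X E κ hE hκ hcnt (fun _ I => (-1 : ℝ) ^ I.card)
      (fun j => (B j).powerset.filter (fun I => I.card ≤ m j)) ?_ ?_).trans ?_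
    · intro j I hI
      exact Finset.mem_powerset.mp (Finset.mem_filter.mp hI).1
    · intro j I
      rw [abs_pow]; simp
    · apply mul_le_mul_of_nonneg_left _ hE
      apply Finset.prod_le_prod
      · intro j _; positivity
      · intro j _
        refine (sum_pow_powerset_filter_le (B j) (m j) κ hκ0).trans ?_
        exact pow_le_pow_right₀ (hN j) (by omega)
  have herr : ∀ l : Fin t,
      |∑ ω ∈ Ω, ∏ j, (if j = l then es (B l) (m l + 1) (ind occ ω) else
          tr (B j) (m j) (ind occ ω)) -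
        X * ∏ j, (if j = l then es (B l) (m l + 1) x else tr (B j) (m j) x)| ≤
      E * ∏ j, (κ * ((B j).card : ℝ) + 1) ^ (m j + 1) := by
    intro l
    have hform : ∀ y : ι → ℝ, ∀ j : Fin t,
        (if j = l then es (B l) (m l + 1) y else tr (B j) (m j) y) =
        ∑ I ∈ (B j).powerset.filter (fun I => if j = l then I.card = m j + 1 else I.card ≤ m j),
          (if j = l then 1 else (-1 : ℝ) ^ I.card) * ∏ i ∈ I, y i := by
      intro y j
      by_cases hj : j = l
      · subst hj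
        simp only [if_true]
        rw [es_eq_sum_filter]
      · simp only [hj, if_false]
        rw [tr_eq_sum_filter]
    simp_rw [hform]
    refine (expand_blocksK Ω occ B hB x X E κ hE hκ hcnt
      (fun j I => if j = l then 1 else (-1 : ℝ) ^ I.card)
      (fun j => (B j).powerset.filter
        (fun I => if j = l then I.card = m j + 1 else I.card ≤ m j)) ?_ ?_).trans ?_
    · intro j I hI
      exact Finset.mem_powerset.mp (Finset.mem_filter.mp hI).1
    · intro j I
      split_ifs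
      · simp
      · rw [abs_pow]; simp
    · apply mul_le_mul_of_nonneg_left _ hE
      apply Finset.prod_le_prod
      · intro j _; positivity
      · intro j _
        refine le_trans ?_ (sum_pow_powerset_filter_le (B j) (m j + 1) κ hκ0)
        apply Finset.sum_le_sum_of_subset_of_nonneg
        · intro I hI
          rw [Finset.mem_filter] at hI ⊢
          refine ⟨hI.1, ?_⟩
          have := hI.2
          split_ifs at this <;> omega
        · intro I _ _
          positivity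
  constructor
  · rw [hcard]
    have h1 : ∑ ω ∈ Ω, ∏ j, ∏ i ∈ B j, (1 - ind occ ω i) ≤
        ∑ ω ∈ Ω, ∏ j, tr (B j) (m j) (ind occ ω) := by
      apply Finset.sum_le_sum
      intro ω _
      exact Finset.prod_le_prod (fun j _ => hP0 ω j) (fun j _ => hPT ω j)
    have h2 := (abs_le.mp hmain).2
    linarith
  · rw [hcard]
    have h1 : ∑ ω ∈ Ω, (∏ j, tr (B j) (m j) (ind occ ω) -
        ∑ l, ∏ j, (if j = l then es (B l) (m l + 1) (ind occ ω) else
          tr (B j) (m j) (ind occ ω))) ≤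
        ∑ ω ∈ Ω, ∏ j, ∏ i ∈ B j, (1 - ind occ ω i) := by
      apply Finset.sum_le_sum
      intro ω _
      refine le_trans ?_ (prod_lower (fun j => ∏ i ∈ B j, (1 - ind occ ω i))
        (fun j => tr (B j) (m j) (ind occ ω)) (hP0 ω) (hPT ω))
      apply sub_le_sub_left
      apply Finset.sum_le_sum
      intro l _
      apply Finset.prod_le_prod
      · intro j _
        split_ifs with hj
        · have := hPT ω l; linarith
        · exact (hP0 ω j).trans (hPT ω j)
      · intro j _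
        split_ifs with hj
        · exact hTP ω l
        · exact le_rfl
    rw [Finset.sum_sub_distrib, Finset.sum_comm] at h1
    have h2 := (abs_le.mp hmain).1
    have h3 : ∑ l : Fin t, ∑ ω ∈ Ω, ∏ j, (if j = l then es (B l) (m l + 1) (ind occ ω) else
          tr (B j) (m j) (ind occ ω)) ≤
        ∑ l : Fin t, (X * ∏ j, (if j = l then es (B l) (m l + 1) x else tr (B j) (m j) x) +
          E * ∏ j, (κ * ((B j).card : ℝ) + 1) ^ (m j + 1)) := by
      apply Finset.sum_le_sum
      intro l _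
      have := (abs_le.mp (herr l)).2
      linarith
    rw [Finset.sum_add_distrib, ← Finset.mul_sum, Finset.sum_const, Finset.card_univ,
      Fintype.card_fin, nsmul_eq_mul] at h3
    have h4 : X * (∏ j, tr (B j) (m j) x -
        ∑ l, ∏ j, (if j = l then es (B l) (m l + 1) x else tr (B j) (m j) x)) -
        E * ((t + 1) * ∏ j, (κ * ((B j).card : ℝ) + 1) ^ (m j + 1)) =
        (X * ∏ j, tr (B j) (m j) x - E * ∏ j, (κ * ((B j).card : ℝ) + 1) ^ (m j + 1)) -
        (X * ∑ l, ∏ j, (if j = l then es (B l) (m l + 1) x else tr (B j) (m j) x) +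
        t * (E * ∏ j, (κ * ((B j).card : ℝ) + 1) ^ (m j + 1))) := by ring
    rw [h4]
    linarith

/-- The Brun-Hooley sieve with clean main terms. -/
theorem brun_hooleyK {t : ℕ} (Ω : Finset α) (occ : ι → α → Prop)
    (B : Fin t → Finset ι) (hB : ∀ i j, i ≠ j → Disjoint (B i) (B j)) (x : ι → ℝ)
    (hx : ∀ j, ∀ i ∈ B j, 0 ≤ x i ∧ x i ≤ 1 / 2) (X E κ : ℝ) (hX : 0 ≤ X) (hE : 0 ≤ E)
    (hκ : 1 ≤ κ)
    (hcnt : ∀ I : Finset ι, I ⊆ Finset.univ.biUnion B →
      |evCount Ω (fun ω => ∀ i ∈ I, occ i ω) - X * ∏ i ∈ I, x i| ≤ E * κ ^ I.card)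
    (m : Fin t → ℕ) (hm : ∀ j, Even (m j))
    (hr : ∑ j, es (B j) (m j + 1) x / ∏ i ∈ B j, (1 - x i) ≤ 1 / 2) :
    evCount Ω (fun ω => ∀ j, ∀ i ∈ B j, ¬ occ i ω) ≤
        2 * X * (∏ j, ∏ i ∈ B j, (1 - x i)) +
          E * ∏ j, (κ * ((B j).card : ℝ) + 1) ^ (m j + 1) ∧
    (1 / 2) * X * (∏ j, ∏ i ∈ B j, (1 - x i)) -
      E * ((t + 1) * ∏ j, (κ * ((B j).card : ℝ) + 1) ^ (m j + 1)) ≤
      evCount Ω (fun ω => ∀ j, ∀ i ∈ B j, ¬ occ i ω) := by
  obtain ⟨h1, h2⟩ := brun_hooley_rawK Ω occ B hB x X E κ hE hκ hcnt m hm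
  have hx1 : ∀ j, ∀ i ∈ B j, 0 ≤ x i ∧ x i ≤ 1 := fun j i hi =>
    ⟨(hx j i hi).1, by linarith [(hx j i hi).2]⟩
  set V : Fin t → ℝ := fun j => ∏ i ∈ B j, (1 - x i) with hV
  have hVpos : ∀ j, 0 < V j := fun j => Finset.prod_pos fun i hi => by
    linarith [(hx j i hi).2]
  set r : Fin t → ℝ := fun j => es (B j) (m j + 1) x / V j with hrdef
  have hr0 : ∀ j, 0 ≤ r j := fun j =>
    div_nonneg (es_nonneg _ _ _ fun i hi => (hx j i hi).1) (hVpos j).le
  have hVT : ∀ j, V j ≤ tr (B j) (m j) x := fun j => prod_le_tr_even _ _ (hx1 j) _ (hm j)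
  have hTV : ∀ j, tr (B j) (m j) x ≤ V j * Real.exp (r j) := by
    intro j
    have h3 := tr_even_le (B j) x (hx1 j) (m j) (hm j)
    have h4 : es (B j) (m j + 1) x = V j * r j := by
      simp only [hrdef]
      rw [mul_div_cancel₀ _ (hVpos j).ne']
    have h5 : r j + 1 ≤ Real.exp (r j) := Real.add_one_le_exp _
    calc tr (B j) (m j) x ≤ V j + V j * r j := by rw [← h4]; exact h3
      _ = V j * (r j + 1) := by ring
      _ ≤ V j * Real.exp (r j) := mul_le_mul_of_nonneg_left h5 (hVpos j).le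
  have hr' : ∑ j, r j ≤ 1 / 2 := hr
  have hT0 : ∀ j, 0 < tr (B j) (m j) x := fun j => (hVpos j).trans_le (hVT j)
  have hPV : 0 < ∏ j, V j := Finset.prod_pos fun j _ => hVpos j
  have hPT : 0 < ∏ j, tr (B j) (m j) x := Finset.prod_pos fun j _ => hT0 j
  have hexp2 : Real.exp (1 / 2) ≤ 2 := by
    have h6 : Real.exp (1 / 2) ^ 2 ≤ 2 ^ 2 := by
      rw [← Real.exp_nat_mul]
      have := Real.exp_one_lt_d9
      have e : ((2 : ℕ) : ℝ) * (1 / 2) = 1 := by norm_num
      rw [e]
      linarith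
    exact (pow_le_pow_iff_left₀ (Real.exp_pos _).le (by norm_num) (by norm_num)).mp h6
  have hup : ∏ j, tr (B j) (m j) x ≤ 2 * ∏ j, V j := by
    calc ∏ j, tr (B j) (m j) x ≤ ∏ j, (V j * Real.exp (r j)) :=
          Finset.prod_le_prod (fun j _ => (hT0 j).le) (fun j _ => hTV j)
      _ = (∏ j, V j) * Real.exp (∑ j, r j) := by
          rw [Finset.prod_mul_distrib, Real.exp_sum]
      _ ≤ (∏ j, V j) * 2 := by
          apply mul_le_mul_of_nonneg_left _ hPV.le
          exact (Real.exp_le_exp.mpr hr').trans hexp2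
      _ = 2 * ∏ j, V j := by ring
  constructor
  · refine h1.trans ?_
    have : X * ∏ j, tr (B j) (m j) x ≤ X * (2 * ∏ j, V j) := mul_le_mul_of_nonneg_left hup hX
    linarith
  · refine le_trans ?_ h2
    have hsum : ∑ l, ∏ j, (if j = l then es (B l) (m l + 1) x else tr (B j) (m j) x) ≤
        (1 / 2) * ∏ j, tr (B j) (m j) x := by
      calc ∑ l, ∏ j, (if j = l then es (B l) (m l + 1) x else tr (B j) (m j) x)
          ≤ ∑ l, r l * ∏ j, tr (B j) (m j) x := by
            apply Finset.sum_le_sum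
            intro l _
            rw [← Finset.mul_prod_erase Finset.univ _ (Finset.mem_univ l),
              ← Finset.mul_prod_erase Finset.univ (fun j => tr (B j) (m j) x) (Finset.mem_univ l),
              if_pos rfl, ← mul_assoc]
            have h7 : ∏ j ∈ Finset.univ.erase l,
                (if j = l then es (B l) (m l + 1) x else tr (B j) (m j) x) =
                ∏ j ∈ Finset.univ.erase l, tr (B j) (m j) x := by
              apply Finset.prod_congr rfl
              intro j hj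
              rw [if_neg (Finset.ne_of_mem_erase hj)]
            rw [h7]
            apply mul_le_mul_of_nonneg_right _ (Finset.prod_nonneg fun j _ => (hT0 j).le)
            have h8 : es (B l) (m l + 1) x = r l * V l := by
              simp only [hrdef]
              rw [div_mul_cancel₀ _ (hVpos l).ne']
            rw [h8]
            exact mul_le_mul_of_nonneg_left (hVT l) (hr0 l)
        _ = (∑ l, r l) * ∏ j, tr (B j) (m j) x := by rw [Finset.sum_mul]
        _ ≤ (1 / 2) * ∏ j, tr (B j) (m j) x := mul_le_mul_of_nonneg_right hr' hPT.le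
    have hlow : ∏ j, V j ≤ ∏ j, tr (B j) (m j) x :=
      Finset.prod_le_prod (fun j _ => (hVpos j).le) (fun j _ => hVT j)
    have : X * ((1 / 2) * ∏ j, V j) ≤ X * (∏ j, tr (B j) (m j) x -
        ∑ l, ∏ j, (if j = l then es (B l) (m l + 1) x else tr (B j) (m j) x)) := by
      apply mul_le_mul_of_nonneg_left _ hX
      linarith
    linarith

end Pool.Agent.Helper96.CPAP
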