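import Pool.Agent.Helper44.SievePairs
import Pool.Agent.Helper96.CPAP.BHk

/-!
# The Brun-Hooley sieve in dimension `k`
-/

set_option autoImplicit false

open Finset Real

namespace Pool.Agent.Helper96.CPAP

open Pool.Agent.Helper44

/-- Block `j` of sieving primes. -/
noncomputable def pb (P : ℕ → Prop) (w : ℝ) (j : ℕ) : Finset ℕ := by
  classical exact (Finset.Ioc ⌊zs w (j + 1)⌋₊ ⌊zs w j⌋₊).filter P

/-- All sieving primes up to `w`. -/
noncomputable def pU (P : ℕ → Prop) (w : ℝ) : Finset ℕ := by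
  classical exact (primesUpTo w).filter P

theorem mem_pb {P : ℕ → Prop} {w : ℝ} {j i : ℕ} :
    i ∈ pb P w j ↔ (⌊zs w (j + 1)⌋₊ < i ∧ i ≤ ⌊zs w j⌋₊) ∧ P i := by
  classical
  unfold pb
  rw [Finset.mem_filter, Finset.mem_Ioc]

theorem mem_pU {P : ℕ → Prop} (hP : ∀ q, P q → q.Prime) {w : ℝ} (hw : 0 ≤ w) {q : ℕ} :
    q ∈ pU P w ↔ P q ∧ (q : ℝ) ≤ w := by
  classical
  unfold pU
  rw [Finset.mem_filter, mem_primesUpTo hw]
  constructor
  · rintro ⟨⟨_, h⟩, h'⟩; exact ⟨h', h⟩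
  · rintro ⟨h', h⟩; exact ⟨⟨hP q h', h⟩, h'⟩

theorem pb_disjoint {P : ℕ → Prop} {w : ℝ} (hw : 1 ≤ w) {i j : ℕ} (hij : i ≠ j) :
    Disjoint (pb P w i) (pb P w j) := by
  rw [Finset.disjoint_left]
  intro a hi hj
  rw [mem_pb] at hi hj
  rcases lt_or_gt_of_ne hij with h | h
  · have : ⌊zs w j⌋₊ ≤ ⌊zs w (i + 1)⌋₊ := Nat.floor_le_floor (zs_anti hw h)
    omega
  · have : ⌊zs w i⌋₊ ≤ ⌊zs w (j + 1)⌋₊ := Nat.floor_le_floor (zs_anti hw h)
    omega

theorem biUnion_pb {P : ℕ → Prop} (hP : ∀ q, P q → q.Prime) {w : ℝ} (hw : 2 ≤ w) :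
    (Finset.univ : Finset (Fin (nb w))).biUnion (fun j => pb P w j) = pU P w := by
  have hw1 : (1 : ℝ) ≤ w := by linarith
  have hw0 : (0 : ℝ) ≤ w := by linarith
  ext q
  rw [mem_pU hP hw0, Finset.mem_biUnion]
  constructor
  · rintro ⟨j, _, hj⟩
    rw [mem_pb] at hj
    refine ⟨hj.2, ?_⟩
    have h4 : (q : ℝ) ≤ zs w j := (Nat.le_floor_iff (zs_pos hw1 j).le).mp hj.1.2
    have h5 : zs w j ≤ w := by
      have := zs_anti hw1 (Nat.zero_le (j : ℕ))
      rwa [zs_zero] at this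
    linarith
  · rintro ⟨hPq, hle⟩
    have h1 : ((q, true) : ℕ × Bool) ∈
        (Finset.univ : Finset (Fin (nb w))).biUnion (fun j => blk w j) := by
      rw [biUnion_blk hw, Finset.mem_product, mem_primesUpTo hw0]
      exact ⟨⟨hP q hPq, hle⟩, Finset.mem_univ _⟩
    rw [Finset.mem_biUnion] at h1
    obtain ⟨j, _, hj⟩ := h1
    rw [mem_blk] at hj
    exact ⟨j, Finset.mem_univ _, mem_pb.mpr ⟨hj.1, hPq⟩⟩

theorem sum_inv_pb_le : ∃ S0 : ℝ, 0 < S0 ∧ ∀ (P : ℕ → Prop), (∀ q, P q → q.Prime) →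
    ∀ w : ℝ, 2 ≤ w → ∀ j : ℕ, ∑ q ∈ pb P w j, (1 : ℝ) / q ≤ S0 := by
  obtain ⟨S0, hS0, hS⟩ := sum_dens_blk_le
  refine ⟨S0, hS0, ?_⟩
  intro P hP w hw j
  have h1 := hS w hw j
  rw [sum_dens_blk] at h1
  have h2 : ∑ q ∈ pb P w j, (1 : ℝ) / q ≤
      ∑ q ∈ (Finset.Ioc ⌊zs w (j + 1)⌋₊ ⌊zs w j⌋₊).filter Nat.Prime, (1 : ℝ) / q := by
    apply Finset.sum_le_sum_of_subset_of_nonneg
    · intro q hq
      rw [mem_pb] at hq
      rw [Finset.mem_filter, Finset.mem_Ioc]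
      exact ⟨hq.1, hP q hq.2⟩
    · intro q _ _; positivity
  have h3 : 0 ≤ ∑ q ∈ (Finset.Ioc ⌊zs w (j + 1)⌋₊ ⌊zs w j⌋₊).filter Nat.Prime, (1 : ℝ) / q :=
    Finset.sum_nonneg fun q _ => by positivity
  linarith

theorem card_pb_le {P : ℕ → Prop} (hP : ∀ q, P q → q.Prime) (k : ℕ) {w : ℝ} (hw : 2 ≤ w) (j : ℕ) :
    ((k : ℝ) + 1) * ((pb P w j).card : ℝ) + 1 ≤ (zs w j) ^ (k + 2) := by
  classical
  have hw1 : (1 : ℝ) ≤ w := by linarith
  have h1 := one_le_zs hw1 j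
  rcases Finset.eq_empty_or_nonempty (pb P w j) with h | ⟨i, hi⟩
  · rw [h]
    simp only [Finset.card_empty, Nat.cast_zero, mul_zero, zero_add]
    exact one_le_pow₀ h1
  · rw [mem_pb] at hi
    have h2 : (2 : ℝ) ≤ zs w j := by
      have h3 : (i : ℝ) ≤ zs w j := (Nat.le_floor_iff (zs_pos hw1 j).le).mp hi.1.2
      have h4 : (2 : ℝ) ≤ i := by exact_mod_cast (hP i hi.2).two_le
      linarith
    have h6 : (pb P w j).card ≤ ⌊zs w j⌋₊ := by
      unfold pb
      refine (Finset.card_filter_le _ _).trans ?_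
      rw [Nat.card_Ioc]; omega
    have h7 : (⌊zs w j⌋₊ : ℝ) ≤ zs w j := Nat.floor_le (zs_pos hw1 j).le
    have h8 : ((pb P w j).card : ℝ) ≤ zs w j := le_trans (by exact_mod_cast h6) h7
    have h9 : (k : ℝ) + 2 ≤ 2 ^ (k + 1) := by
      have := Nat.lt_two_pow_self (n := k + 1)
      have h10 : k + 2 ≤ 2 ^ (k + 1) := by omega
      exact_mod_cast h10
    have h10 : (2 : ℝ) ^ (k + 1) ≤ (zs w j) ^ (k + 1) := pow_le_pow_left₀ (by norm_num) h2 _
    have hk : (0 : ℝ) ≤ k := by positivity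
    calc ((k : ℝ) + 1) * ((pb P w j).card : ℝ) + 1 ≤ ((k : ℝ) + 1) * zs w j + 1 := by gcongr
      _ ≤ ((k : ℝ) + 2) * zs w j := by nlinarith
      _ ≤ (zs w j) ^ (k + 1) * zs w j := by
          apply mul_le_mul_of_nonneg_right (h9.trans h10) (by linarith)
      _ = (zs w j) ^ (k + 2) := by ring

theorem prod_pb_card_le {P : ℕ → Prop} (hP : ∀ q, P q → q.Prime) (k : ℕ) {w : ℝ} (hw : 2 ≤ w)
    (b : ℕ) :
    ∏ j : Fin (nb w), (((k : ℝ) + 1) * ((pb P w j).card : ℝ) + 1) ^ (2 * (b + (j : ℕ)) + 1) ≤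
      w ^ (((k : ℝ) + 2) * (4 * b + 6) : ℝ) := by
  have hw1 : (1 : ℝ) ≤ w := by linarith
  have hw0 : (0 : ℝ) < w := by linarith
  calc ∏ j : Fin (nb w), (((k : ℝ) + 1) * ((pb P w j).card : ℝ) + 1) ^ (2 * (b + (j : ℕ)) + 1)
      ≤ ∏ j : Fin (nb w), w ^ ((1 / 2 : ℝ) ^ (j : ℕ) * (((k : ℝ) + 2) * (2 * (b + (j : ℕ)) + 1))) := by
        apply Finset.prod_le_prod
        · intro j _; positivity
        · intro j _
          calc (((k : ℝ) + 1) * ((pb P w j).card : ℝ) + 1) ^ (2 * (b + (j : ℕ)) + 1)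
              ≤ ((zs w j) ^ (k + 2)) ^ (2 * (b + (j : ℕ)) + 1) :=
                pow_le_pow_left₀ (by positivity) (card_pb_le hP k hw j) _
            _ = w ^ ((1 / 2 : ℝ) ^ (j : ℕ) * (((k : ℝ) + 2) * (2 * (b + (j : ℕ)) + 1))) := by
                unfold zs
                rw [← pow_mul, ← Real.rpow_natCast, ← Real.rpow_mul hw0.le]
                congr 1
                push_cast
                ring
    _ = w ^ (∑ j : Fin (nb w), (1 / 2 : ℝ) ^ (j : ℕ) *
          (((k : ℝ) + 2) * (2 * (b + (j : ℕ)) + 1))) := by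
        rw [Real.rpow_sum_of_pos hw0]
    _ ≤ w ^ (((k : ℝ) + 2) * (4 * b + 6) : ℝ) := by
        apply Real.rpow_le_rpow_of_exponent_le hw1
        rw [Fin.sum_univ_eq_sum_range
          (fun j => (1 / 2 : ℝ) ^ (j : ℕ) * (((k : ℝ) + 2) * (2 * (b + (j : ℝ)) + 1))) (nb w)]
        have e : ∀ j ∈ range (nb w), (1 / 2 : ℝ) ^ (j : ℕ) *
            (((k : ℝ) + 2) * (2 * (b + (j : ℝ)) + 1)) =
            (((k : ℝ) + 2) * (2 * b + 1)) * (1 / 2 : ℝ) ^ j +
              (2 * ((k : ℝ) + 2)) * ((j : ℝ) * (1 / 2 : ℝ) ^ j) := by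
          intro j _; ring
        rw [Finset.sum_congr rfl e, Finset.sum_add_distrib, ← Finset.mul_sum, ← Finset.mul_sum]
        have h1 := sum_geo_le (nb w)
        have h2 := sum_geo_mul_le (nb w)
        have h3 : (0 : ℝ) ≤ ((k : ℝ) + 2) * (2 * b + 1) := by positivity
        have h4 : (0 : ℝ) ≤ 2 * ((k : ℝ) + 2) := by positivity
        have h5 := mul_le_mul_of_nonneg_left h1 h3
        have h6 := mul_le_mul_of_nonneg_left h2 h4
        calc _ ≤ ((k : ℝ) + 2) * (2 * b + 1) * 2 + 2 * ((k : ℝ) + 2) * 2 := add_le_add h5 h6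
          _ = _ := by ring

/-- Lower bound for the sieve product in dimension `k`. -/
theorem prod_lower_bound (k : ℕ) : ∃ c : ℝ, 0 < c ∧ ∀ (P : ℕ → Prop),
    (∀ q, P q → q.Prime ∧ 2 * k ≤ q) → ∀ ν : ℕ → ℝ, (∀ q, P q → 0 ≤ ν q ∧ ν q ≤ k) →
    ∀ w : ℝ, 2 ≤ w → c / (Real.log w) ^ k ≤ ∏ q ∈ pU P w, (1 - ν q / q) := by
  classical
  obtain ⟨C, hC, hM⟩ := sum_primesUpTo_bounds
  obtain ⟨C2, hC2, hS⟩ := sum_inv_sq_le
  refine ⟨Real.exp (-(k * C + 2 * k ^ 2 * C2)), Real.exp_pos _, ?_⟩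
  intro P hP ν hν w hw
  have hP' : ∀ q, P q → q.Prime := fun q h => (hP q h).1
  have hw0 : 0 ≤ w := by linarith
  have hlw : 0 < Real.log w := Real.log_pos (by linarith)
  have hy : ∀ q ∈ pU P w, 0 ≤ ν q / q ∧ ν q / q ≤ k * (1 / (q : ℝ)) ∧ ν q / q ≤ 1 / 2 := by
    intro q hq
    rw [mem_pU hP' hw0] at hq
    have h1 := hP q hq.1
    have h2 := hν q hq.1
    have hq0 : (0 : ℝ) < q := by exact_mod_cast h1.1.pos
    have h3 : (2 : ℝ) * k ≤ q := by exact_mod_cast h1.2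
    refine ⟨div_nonneg h2.1 hq0.le, ?_, ?_⟩
    · rw [mul_one_div]
      exact div_le_div_of_nonneg_right h2.2 hq0.le
    · rw [div_le_iff₀ hq0]
      linarith
  have h1 : ∏ q ∈ pU P w, Real.exp (-(ν q / q + 2 * (ν q / q) ^ 2)) ≤
      ∏ q ∈ pU P w, (1 - ν q / q) := by
    apply Finset.prod_le_prod
    · intro q _; exact (Real.exp_pos _).le
    · intro q hq
      exact one_sub_ge_exp' (hy q hq).1 (hy q hq).2.2
  refine le_trans ?_ h1
  rw [← Real.exp_sum, Finset.sum_neg_distrib, Finset.sum_add_distrib]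
  have h2 : ∑ q ∈ pU P w, ν q / q ≤ k * (Real.log (Real.log w) + C) := by
    calc ∑ q ∈ pU P w, ν q / q ≤ ∑ q ∈ pU P w, k * (1 / (q : ℝ)) :=
          Finset.sum_le_sum fun q hq => (hy q hq).2.1
      _ = k * ∑ q ∈ pU P w, (1 / (q : ℝ)) := by rw [Finset.mul_sum]
      _ ≤ k * ∑ q ∈ primesUpTo w, (1 / (q : ℝ)) := by
          apply mul_le_mul_of_nonneg_left _ (by positivity)
          apply Finset.sum_le_sum_of_subset_of_nonneg
          · unfold pU
            exact Finset.filter_subset _ _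
          · intro q _ _; positivity
      _ ≤ k * (Real.log (Real.log w) + C) := by
          apply mul_le_mul_of_nonneg_left _ (by positivity)
          have := (abs_le.mp (hM w hw)).2
          linarith
  have h3 : ∑ q ∈ pU P w, 2 * (ν q / q) ^ 2 ≤ 2 * k ^ 2 * C2 := by
    calc ∑ q ∈ pU P w, 2 * (ν q / q) ^ 2 ≤ ∑ q ∈ pU P w, 2 * (k : ℝ) ^ 2 * (1 / (q : ℝ)) ^ 2 := by
          apply Finset.sum_le_sum
          intro q hq
          have h4 := pow_le_pow_left₀ (hy q hq).1 (hy q hq).2.1 2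
          rw [mul_pow] at h4
          linarith
      _ = 2 * (k : ℝ) ^ 2 * ∑ q ∈ pU P w, (1 / (q : ℝ)) ^ 2 := by rw [Finset.mul_sum]
      _ ≤ 2 * k ^ 2 * C2 := mul_le_mul_of_nonneg_left (hS _) (by positivity)
  have h4 : Real.exp (-(k * C + 2 * k ^ 2 * C2)) / (Real.log w) ^ k =
      Real.exp (-(k * (Real.log (Real.log w) + C) + 2 * k ^ 2 * C2)) := by
    have h5 : (Real.log w) ^ k = Real.exp (k * Real.log (Real.log w)) := by
      rw [Real.exp_nat_mul, Real.exp_log hlw]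
    rw [h5, ← Real.exp_sub]
    congr 1
    ring
  rw [h4]
  apply Real.exp_le_exp.mpr
  linarith

/-- The `k`-dimensional Brun-Hooley sieve. -/
theorem sieveK (k : ℕ) : ∃ K c : ℝ, 1 ≤ K ∧ 0 < c ∧ ∀ (α : Type) (P : ℕ → Prop),
    (∀ q, P q → q.Prime ∧ 2 * k ≤ q) → ∀ ν : ℕ → ℝ, (∀ q, P q → 0 ≤ ν q ∧ ν q ≤ k) →
    ∀ w : ℝ, 2 ≤ w → ∀ (Ω : Finset α) (occ : ℕ → α → Prop) (X E : ℝ), 0 ≤ X → 0 ≤ E →
    (∀ I : Finset ℕ, (∀ q ∈ I, P q ∧ (q : ℝ) ≤ w) →
      |evCount Ω (fun ω => ∀ q ∈ I, occ q ω) - X * ∏ q ∈ I, (ν q / q)| ≤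
        E * ((k : ℝ) + 1) ^ I.card) →
    evCount Ω (fun ω => ∀ q : ℕ, P q → (q : ℝ) ≤ w → ¬ occ q ω) ≤
        2 * X * (∏ q ∈ pU P w, (1 - ν q / q)) + E * w ^ K ∧
    c * X / (Real.log w) ^ k - E * w ^ K ≤
      evCount Ω (fun ω => ∀ q : ℕ, P q → (q : ℝ) ≤ w → ¬ occ q ω) := by
  obtain ⟨S0, hS0, hS⟩ := sum_inv_pb_le
  obtain ⟨c1, hc1, hlow⟩ := prod_lower_bound k
  set S1 : ℝ := k * S0 with hS1
  have hS1n : 0 ≤ S1 := by positivity
  have hsum : Summable (fun n : ℕ => S1 ^ n / (n.factorial : ℝ)) := Real.summable_pow_div_factorial S1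
  obtain ⟨s0, hs0⟩ := summable_iff_vanishing_norm.mp hsum (Real.exp (-(2 * S1)) / 2) (by positivity)
  set b := s0.sup id + 1 with hb
  set K0 : ℝ := ((k : ℝ) + 2) * (4 * b + 6) with hK0
  have hK0' : 0 ≤ K0 := by positivity
  refine ⟨K0 + 2, c1 / 2, by linarith, by positivity, ?_⟩
  intro α P hP ν hν w hw Ω occ X E hX hE hcnt
  have hP' : ∀ q, P q → q.Prime := fun q h => (hP q h).1
  have hw1 : (1 : ℝ) ≤ w := by linarith
  have hw0 : (0 : ℝ) < w := by linarith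
  have hlw : 0 < Real.log w := Real.log_pos (by linarith)
  have hdisj : ∀ i j : Fin (nb w), i ≠ j → Disjoint (pb P w i) (pb P w j) := by
    intro i j hij
    exact pb_disjoint hw1 (fun h => hij (Fin.ext h))
  have hx : ∀ j : ℕ, ∀ i ∈ pb P w j, 0 ≤ ν i / i ∧ ν i / i ≤ 1 / 2 := by
    intro j i hi
    rw [mem_pb] at hi
    have h1 := hP i hi.2
    have h2 := hν i hi.2
    have hq0 : (0 : ℝ) < i := by exact_mod_cast h1.1.pos
    have h3 : (2 : ℝ) * k ≤ i := by exact_mod_cast h1.2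
    refine ⟨div_nonneg h2.1 hq0.le, ?_⟩
    rw [div_le_iff₀ hq0]
    linarith
  have hcnt' : ∀ I : Finset ℕ,
      I ⊆ Finset.univ.biUnion (fun j : Fin (nb w) => pb P w j) →
      |evCount Ω (fun ω => ∀ i ∈ I, occ i ω) - X * ∏ i ∈ I, (ν i / i)| ≤
        E * ((k : ℝ) + 1) ^ I.card := by
    intro I hI
    apply hcnt
    intro q hq
    have := hI hq
    rwa [biUnion_pb hP' hw, mem_pU hP' hw0.le] at this
  have hsumx : ∀ j : ℕ, ∑ i ∈ pb P w j, ν i / i ≤ S1 := by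
    intro j
    calc ∑ i ∈ pb P w j, ν i / i ≤ ∑ i ∈ pb P w j, k * ((1 : ℝ) / i) := by
          apply Finset.sum_le_sum
          intro i hi
          rw [mem_pb] at hi
          have hq0 : (0 : ℝ) < i := by exact_mod_cast (hP' i hi.2).pos
          rw [mul_one_div]
          exact div_le_div_of_nonneg_right (hν i hi.2).2 hq0.le
      _ = k * ∑ i ∈ pb P w j, (1 : ℝ) / i := by rw [Finset.mul_sum]
      _ ≤ k * S0 := mul_le_mul_of_nonneg_left (hS P hP' w hw j) (by positivity)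
  have hVlow : ∀ j : Fin (nb w), Real.exp (-(2 * S1)) ≤ ∏ i ∈ pb P w j, (1 - ν i / i) := by
    intro j
    calc Real.exp (-(2 * S1)) ≤ Real.exp (-∑ i ∈ pb P w j, 2 * (ν i / i)) := by
          apply Real.exp_le_exp.mpr
          rw [← Finset.mul_sum]
          have := hsumx j
          linarith
      _ = ∏ i ∈ pb P w j, Real.exp (-(2 * (ν i / i))) := by
          rw [← Finset.sum_neg_distrib, Real.exp_sum]
      _ ≤ _ := by
          apply Finset.prod_le_prod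
          · intro i _; exact (Real.exp_pos _).le
          · intro i hi
            have := hx j i hi
            exact one_sub_ge_exp this.1 this.2
  have hr : ∑ j : Fin (nb w), es (pb P w j) (2 * (b + (j : ℕ)) + 1) (fun q => ν q / q) /
      ∏ i ∈ pb P w j, (1 - ν i / i) ≤ 1 / 2 := by
    have hterm : ∀ j : Fin (nb w), es (pb P w j) (2 * (b + (j : ℕ)) + 1) (fun q => ν q / q) /
        ∏ i ∈ pb P w j, (1 - ν i / i) ≤
        (S1 ^ (2 * (b + (j : ℕ)) + 1) / ((2 * (b + (j : ℕ)) + 1).factorial : ℝ)) *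
          Real.exp (2 * S1) := by
      intro j
      have h1 : es (pb P w j) (2 * (b + (j : ℕ)) + 1) (fun q => ν q / q) ≤
          S1 ^ (2 * (b + (j : ℕ)) + 1) / ((2 * (b + (j : ℕ)) + 1).factorial : ℝ) := by
        refine (es_le_pow_div_factorial _ _ (fun i hi => (hx j i hi).1) _).trans ?_
        apply div_le_div_of_nonneg_right _ (by positivity)
        apply pow_le_pow_left₀ (Finset.sum_nonneg fun i hi => (hx j i hi).1) (hsumx j)
      have h2 := hVlow j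
      have h3 : 0 < Real.exp (-(2 * S1)) := Real.exp_pos _
      rw [div_le_iff₀ (h3.trans_le h2)]
      calc es (pb P w j) (2 * (b + (j : ℕ)) + 1) (fun q => ν q / q)
          ≤ S1 ^ (2 * (b + (j : ℕ)) + 1) / ((2 * (b + (j : ℕ)) + 1).factorial : ℝ) * 1 := by
            rw [mul_one]; exact h1
        _ = S1 ^ (2 * (b + (j : ℕ)) + 1) / ((2 * (b + (j : ℕ)) + 1).factorial : ℝ) *
              (Real.exp (2 * S1) * Real.exp (-(2 * S1))) := by
            rw [← Real.exp_add]; simp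
        _ ≤ S1 ^ (2 * (b + (j : ℕ)) + 1) / ((2 * (b + (j : ℕ)) + 1).factorial : ℝ) *
              (Real.exp (2 * S1) * ∏ i ∈ pb P w j, (1 - ν i / i)) := by
            gcongr
        _ = _ := by ring
    calc ∑ j : Fin (nb w), es (pb P w j) (2 * (b + (j : ℕ)) + 1) (fun q => ν q / q) /
          ∏ i ∈ pb P w j, (1 - ν i / i)
        ≤ ∑ j : Fin (nb w), (S1 ^ (2 * (b + (j : ℕ)) + 1) /
            ((2 * (b + (j : ℕ)) + 1).factorial : ℝ)) * Real.exp (2 * S1) :=
          Finset.sum_le_sum fun j _ => hterm j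
      _ = (∑ n ∈ (Finset.univ : Finset (Fin (nb w))).image (fun j : Fin (nb w) => 2 * (b + (j : ℕ)) + 1),
            S1 ^ n / (n.factorial : ℝ)) * Real.exp (2 * S1) := by
          rw [← Finset.sum_mul, Finset.sum_image]
          intro i _ j _ hij
          apply Fin.ext
          simp only at hij
          omega
      _ ≤ (Real.exp (-(2 * S1)) / 2) * Real.exp (2 * S1) := by
          apply mul_le_mul_of_nonneg_right _ (Real.exp_pos _).le
          have h4 := hs0 ((Finset.univ : Finset (Fin (nb w))).image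
            (fun j : Fin (nb w) => 2 * (b + (j : ℕ)) + 1)) ?_
          · rw [Real.norm_eq_abs] at h4
            exact (le_abs_self _).trans h4.le
          · rw [Finset.disjoint_left]
            intro n hn hn'
            rw [Finset.mem_image] at hn
            obtain ⟨j, _, rfl⟩ := hn
            have : id (2 * (b + (j : ℕ)) + 1) ≤ s0.sup id := Finset.le_sup (f := id) hn'
            simp only [id] at this
            omega
      _ = 1 / 2 := by
          rw [div_mul_eq_mul_div, ← Real.exp_add]; simp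
  have hmain := brun_hooleyK Ω occ (fun j : Fin (nb w) => pb P w j) hdisj (fun q => ν q / q)
    (fun j i hi => hx j i hi) X E ((k : ℝ) + 1) hX hE (by linarith [Nat.cast_nonneg (α := ℝ) k])
    hcnt' (fun j => 2 * (b + (j : ℕ)))
    (fun j => even_two_mul _) hr
  -- identify the event
  have hevent : (fun ω : α => ∀ j : Fin (nb w), ∀ i ∈ pb P w j, ¬ occ i ω) =
      (fun ω => ∀ q : ℕ, P q → (q : ℝ) ≤ w → ¬ occ q ω) := by
    funext ω
    apply propext
    constructor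
    · intro h q hq hqw
      have : q ∈ (Finset.univ : Finset (Fin (nb w))).biUnion (fun j => pb P w j) := by
        rw [biUnion_pb hP' hw, mem_pU hP' hw0.le]
        exact ⟨hq, hqw⟩
      rw [Finset.mem_biUnion] at this
      obtain ⟨j, _, hj⟩ := this
      exact h j q hj
    · intro h j i hi
      have hi' : i ∈ (Finset.univ : Finset (Fin (nb w))).biUnion (fun j => pb P w j) :=
        Finset.mem_biUnion.mpr ⟨j, Finset.mem_univ _, hi⟩
      rw [biUnion_pb hP' hw, mem_pU hP' hw0.le] at hi'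
      exact h i hi'.1 hi'.2
  rw [hevent] at hmain
  -- the product
  have hprodV : ∏ j : Fin (nb w), ∏ i ∈ pb P w j, (1 - ν i / i) =
      ∏ q ∈ pU P w, (1 - ν q / q) := by
    rw [← Finset.prod_biUnion, biUnion_pb hP' hw]
    intro i _ j _ hij
    exact hdisj i j hij
  rw [hprodV] at hmain
  have hPw := hlow P hP ν hν w hw
  have hprod := prod_pb_card_le hP' k hw b
  have hprod0 : 0 ≤ ∏ j : Fin (nb w),
      (((k : ℝ) + 1) * ((pb P w j).card : ℝ) + 1) ^ (2 * (b + (j : ℕ)) + 1) :=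
    Finset.prod_nonneg fun j _ => by positivity
  have hwK : w ^ (K0 + 2) = w ^ K0 * w ^ 2 := by
    rw [Real.rpow_add hw0]
    norm_num
  have hwK0 : 0 < w ^ K0 := Real.rpow_pos_of_pos hw0 _
  have hnb : (nb w : ℝ) + 1 ≤ w ^ 2 := by
    unfold nb
    push_cast
    have := Nat.floor_le hw0.le
    nlinarith
  constructor
  · refine hmain.1.trans ?_
    have h2 : E * ∏ j : Fin (nb w),
        (((k : ℝ) + 1) * ((pb P w j).card : ℝ) + 1) ^ (2 * (b + (j : ℕ)) + 1) ≤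
        E * w ^ (K0 + 2) := by
      apply mul_le_mul_of_nonneg_left _ hE
      refine hprod.trans ?_
      rw [hwK]
      have : (1 : ℝ) ≤ w ^ 2 := one_le_pow₀ hw1
      nlinarith
    linarith
  · refine le_trans ?_ hmain.2
    have h1 : c1 / 2 * X / Real.log w ^ k ≤
        1 / 2 * X * ∏ q ∈ pU P w, (1 - ν q / q) := by
      calc c1 / 2 * X / Real.log w ^ k = 1 / 2 * X * (c1 / Real.log w ^ k) := by ring
        _ ≤ _ := by
            apply mul_le_mul_of_nonneg_left _ (by positivity)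
            exact hPw
    have h2 : E * (((nb w : ℕ) + 1) *
        ∏ j : Fin (nb w), (((k : ℝ) + 1) * ((pb P w j).card : ℝ) + 1) ^ (2 * (b + (j : ℕ)) + 1)) ≤
        E * w ^ (K0 + 2) := by
      apply mul_le_mul_of_nonneg_left _ hE
      rw [hwK, mul_comm (w ^ K0)]
      exact mul_le_mul hnb hprod hprod0 (by positivity)
    linarith

end Pool.Agent.Helper96.CPAP
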