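import Pool.Agent.Helper96.CPAP.Count
import Pool.Agent.Helper44.MertensProd

/-!
# Upper bounds for prime `k`-tuples with an explicit singular product

`tuple_upper`: the number of `n < N` with all `n + h` (`h ∈ H`) prime is at most
`C_k * N / (log N)^k * ∏_{p ∣ disc H} (1 + 1/p)^k`, uniformly in the `k`-element set `H`.
`avg_window`: the product `∏_{p ∣ h} (1 + 1/p)^j` is bounded on average over short windows.
-/

set_option autoImplicit false

open Finset

namespace Pool.Agent.Helper96.CPAP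

open Pool.Agent.Helper44

/-- Number of residues `n` modulo `q` with `q ∣ n + h` for some `h ∈ H`. -/
noncomputable def nuH (H : Finset ℕ) (q : ℕ) : ℕ := by
  classical exact ((range q).filter (fun n => ∃ h ∈ H, q ∣ n + h)).card

theorem nuH_eq_image {H : Finset ℕ} {q : ℕ} (hq : 0 < q) :
    nuH H q = (H.image (fun h => h % q)).card := by
  classical
  unfold nuH
  symm
  refine Finset.card_nbij' (fun r => (q - r) % q) (fun n => (q - n) % q) ?_ ?_ ?_ ?_
  · intro r hr
    rw [Finset.mem_coe, Finset.mem_image] at hr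
    obtain ⟨h, hh, rfl⟩ := hr
    rw [Finset.mem_coe, Finset.mem_filter, Finset.mem_range]
    refine ⟨Nat.mod_lt _ hq, h, hh, ?_⟩
    have hlt := Nat.mod_lt h hq
    have h1 : (q - h % q) % q + h ≡ 0 [MOD q] := by
      have h2 : (q - h % q) % q + h ≡ (q - h % q) + h % q [MOD q] :=
        Nat.ModEq.add (Nat.mod_modEq _ _) (Nat.mod_modEq _ _).symm
      rw [Nat.sub_add_cancel hlt.le] at h2
      exact h2.trans (by simp [Nat.ModEq])
    exact (Nat.modEq_zero_iff_dvd).mp h1
  · intro n hn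
    rw [Finset.mem_coe, Finset.mem_filter, Finset.mem_range] at hn
    obtain ⟨hn, h, hh, hd⟩ := hn
    rw [Finset.mem_coe, Finset.mem_image]
    refine ⟨h, hh, ?_⟩
    have h1 : n + h ≡ n + (q - n) [MOD q] := by
      rw [Nat.add_sub_cancel' hn.le]
      exact ((Nat.modEq_zero_iff_dvd).mpr hd).trans (by simp [Nat.ModEq])
    exact Nat.ModEq.add_left_cancel' n h1
  · intro r hr
    rw [Finset.mem_coe, Finset.mem_image] at hr
    obtain ⟨h, hh, rfl⟩ := hr
    have hlt := Nat.mod_lt h hq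
    rcases Nat.eq_zero_or_pos (h % q) with h0 | h0
    · simp only [h0, Nat.sub_zero, Nat.mod_self]
    · simp only
      rw [Nat.mod_eq_of_lt (by omega : q - h % q < q), Nat.sub_sub_self hlt.le, Nat.mod_eq_of_lt hlt]
  · intro n hn
    rw [Finset.mem_coe, Finset.mem_filter, Finset.mem_range] at hn
    have hlt := hn.1
    rcases Nat.eq_zero_or_pos n with h0 | h0
    · subst h0; simp only [Nat.sub_zero, Nat.mod_self]
    · simp only
      rw [Nat.mod_eq_of_lt (by omega : q - n < q), Nat.sub_sub_self hlt.le, Nat.mod_eq_of_lt hlt]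

theorem nuH_le {H : Finset ℕ} {q : ℕ} (hq : 0 < q) : nuH H q ≤ H.card := by
  rw [nuH_eq_image hq]; exact Finset.card_image_le

/-- Product of the differences of the elements of `H`. -/
def disc (H : Finset ℕ) : ℕ := ∏ x ∈ H.offDiag.filter (fun x => x.1 < x.2), (x.2 - x.1)

theorem disc_pos (H : Finset ℕ) : 0 < disc H := by
  unfold disc
  apply Finset.prod_pos
  intro x hx
  rw [Finset.mem_filter] at hx
  omega

theorem dvd_disc {H : Finset ℕ} {a b : ℕ} (ha : a ∈ H) (hb : b ∈ H) (hab : a < b) :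
    b - a ∣ disc H := by
  unfold disc
  have : (a, b) ∈ H.offDiag.filter (fun x => x.1 < x.2) := by
    rw [Finset.mem_filter, Finset.mem_offDiag]
    exact ⟨⟨ha, hb, hab.ne⟩, hab⟩
  exact Finset.dvd_prod_of_mem (fun x : ℕ × ℕ => x.2 - x.1) this

theorem nuH_eq_card {H : Finset ℕ} {q : ℕ} (hq : 0 < q) (hd : ¬ q ∣ disc H) :
    nuH H q = H.card := by
  rw [nuH_eq_image hq]
  apply Finset.card_image_of_injOn
  intro a ha b hb hab
  by_contra hne
  rcases lt_or_gt_of_ne hne with h | h
  · exact hd (((Nat.modEq_iff_dvd' h.le).mp hab).trans (dvd_disc ha hb h))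
  · exact hd (((Nat.modEq_iff_dvd' h.le).mp hab.symm).trans (dvd_disc hb ha h))

theorem occH_mod {H : Finset ℕ} {q Q : ℕ} (hqQ : q ∣ Q) (n : ℕ) :
    (∃ h ∈ H, q ∣ (n % Q) + h) ↔ (∃ h ∈ H, q ∣ n + h) := by
  apply exists_congr
  intro h
  apply and_congr_right
  intro _
  have h1 : n % Q + h ≡ n + h [MOD q] := ((Nat.mod_modEq n Q).of_dvd hqQ).add_right h
  exact ⟨fun h' => (Nat.ModEq.dvd_iff h1 dvd_rfl).mp h',
    fun h' => (Nat.ModEq.dvd_iff h1 dvd_rfl).mpr h'⟩

theorem card_occH_prod (H : Finset ℕ) (I : Finset ℕ) (hI : ∀ q ∈ I, q.Prime) :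
    ((range (∏ q ∈ I, q)).filter (fun n => ∀ q ∈ I, ∃ h ∈ H, q ∣ n + h)).card =
      ∏ q ∈ I, nuH H q := by
  classical
  induction I using Finset.induction_on with
  | empty => simp
  | insert q I hqI ih =>
    have hq := hI q (Finset.mem_insert_self _ _)
    have hI' : ∀ q ∈ I, q.Prime := fun q' hq' => hI q' (Finset.mem_insert_of_mem hq')
    have hco : Nat.Coprime q (∏ q ∈ I, q) := by
      apply Nat.Coprime.prod_right
      intro q' hq'
      exact (Nat.coprime_primes hq (hI' q' hq')).mpr (fun h => hqI (h ▸ hq'))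
    have hpos : 0 < ∏ q ∈ I, q := Finset.prod_pos fun q' hq' => (hI' q' hq').pos
    rw [Finset.prod_insert hqI, Finset.prod_insert hqI, ← ih hI']
    have hnu : nuH H q = ((range q).filter (fun n => ∃ h ∈ H, q ∣ n + h)).card := by
      unfold nuH
      congr 1
    rw [hnu, ← card_crt hco hq.pos hpos]
    · congr 1
      apply Finset.filter_congr
      intro n _
      rw [Finset.forall_mem_insert]
    · intro n
      exact occH_mod dvd_rfl n
    · intro n
      apply forall₂_congr
      intro q' hq'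
      exact occH_mod (Finset.dvd_prod_of_mem _ hq') n

theorem countH_bound (H : Finset ℕ) (I : Finset ℕ) (hI : ∀ q ∈ I, q.Prime) (N : ℕ) :
    |evCount (range N) (fun n => ∀ q ∈ I, ∃ h ∈ H, q ∣ n + h) -
      (N : ℝ) * ∏ q ∈ I, ((nuH H q : ℝ) / q)| ≤ 1 * ((H.card : ℝ) + 1) ^ I.card := by
  classical
  have hpos : 0 < ∏ q ∈ I, q := Finset.prod_pos fun q' hq' => (hI q' hq').pos
  have hper : ∀ n, (∀ q ∈ I, ∃ h ∈ H, q ∣ (n + ∏ q ∈ I, q) + h) ↔
      (∀ q ∈ I, ∃ h ∈ H, q ∣ n + h) := by
    intro n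
    apply forall₂_congr
    intro q' hq'
    have hdv : q' ∣ ∏ q ∈ I, q := Finset.dvd_prod_of_mem _ hq'
    rw [← occH_mod hdv (n + ∏ q ∈ I, q), ← occH_mod hdv n, Nat.add_mod_right]
  have h1 := count_periodic_bound (p := fun n => ∀ q ∈ I, ∃ h ∈ H, q ∣ n + h) hpos hper N
  rw [Nat.count_eq_card_filter_range, Nat.count_eq_card_filter_range, card_occH_prod H I hI] at h1
  rw [evCount_eq, Finset.prod_div_distrib]
  push_cast at h1
  refine h1.trans ?_
  rw [one_mul, ← Finset.prod_const]
  apply Finset.prod_le_prod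
  · intro q _; positivity
  · intro q hq
    have : (nuH H q : ℝ) ≤ H.card := by exact_mod_cast nuH_le (hI q hq).pos
    linarith

/-- The singular product `∏_{p ∣ D} (1 + 1/p)^j`. -/
noncomputable def sing (j D : ℕ) : ℝ := ∏ p ∈ D.primeFactors, (1 + 1 / (p : ℝ)) ^ j

theorem one_le_sing (j D : ℕ) : 1 ≤ sing j D := by
  unfold sing
  have : ∀ p ∈ D.primeFactors, (1 : ℝ) ≤ (1 + 1 / (p : ℝ)) ^ j := by
    intro p _
    apply one_le_pow₀
    have : (0 : ℝ) ≤ 1 / p := by positivity
    linarith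
  calc (1 : ℝ) = ∏ p ∈ D.primeFactors, (1 : ℝ) := by simp
    _ ≤ _ := Finset.prod_le_prod (fun _ _ => zero_le_one) this

theorem exp_le_one_add {x : ℝ} (h0 : 0 ≤ x) : Real.exp x ≤ (1 + x) * Real.exp (x ^ 2) := by
  have h1 : Real.exp (x - x ^ 2) ≤ 1 + x := by
    rcases le_or_gt x 1 with h | h
    · have h2 := Real.add_one_le_exp (-(x - x ^ 2))
      have h3 : 0 ≤ x - x ^ 2 := by nlinarith
      have h4 : x - x ^ 2 < 1 := by nlinarith
      have h5 : Real.exp (x - x ^ 2) * Real.exp (-(x - x ^ 2)) = 1 := by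
        rw [← Real.exp_add]; simp
      have h6 : Real.exp (x - x ^ 2) * (1 - (x - x ^ 2)) ≤ 1 := by
        have := Real.exp_pos (x - x ^ 2)
        nlinarith
      have h7 : (1 : ℝ) ≤ (1 + x) * (1 - (x - x ^ 2)) := by nlinarith
      by_contra hc
      push Not at hc
      have h8 : 0 < 1 - (x - x ^ 2) := by linarith
      have h9 := mul_lt_mul_of_pos_right hc h8
      linarith
    · have : Real.exp (x - x ^ 2) ≤ 1 := by
        rw [Real.exp_le_one_iff]; nlinarith
      linarith
  calc Real.exp x = Real.exp (x - x ^ 2) * Real.exp (x ^ 2) := by rw [← Real.exp_add]; ring_nf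
    _ ≤ _ := mul_le_mul_of_nonneg_right h1 (Real.exp_pos _).le

theorem prod_le_of_subset {S T : Finset ℕ} {f : ℕ → ℝ} (hST : S ⊆ T) (h0 : ∀ q ∈ S, 0 ≤ f q)
    (h1 : ∀ q ∈ T, q ∉ S → 1 ≤ f q) : ∏ q ∈ S, f q ≤ ∏ q ∈ T, f q := by
  classical
  rw [← Finset.prod_sdiff hST]
  have h2 : 0 ≤ ∏ q ∈ S, f q := Finset.prod_nonneg h0
  have h3 : 1 ≤ ∏ q ∈ T \ S, f q := by
    calc (1 : ℝ) = ∏ q ∈ T \ S, (1 : ℝ) := by simp
      _ ≤ _ := by
        apply Finset.prod_le_prod (fun _ _ => zero_le_one)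
        intro q hq
        rw [Finset.mem_sdiff] at hq
        exact h1 q hq.1 hq.2
  nlinarith

/-- Upper bound of the sieve product of the tuple `H`. -/
theorem prodH_le (k : ℕ) : ∃ C : ℝ, 0 < C ∧ ∀ H : Finset ℕ, H.card = k → ∀ w : ℝ, 2 ≤ w →
    ∏ q ∈ pU (fun q => q.Prime ∧ 2 * k ≤ q) w, (1 - (nuH H q : ℝ) / q) ≤
      C / (Real.log w) ^ k * sing k (disc H) := by
  classical
  obtain ⟨C, hC, hM⟩ := sum_primesUpTo_bounds
  obtain ⟨C2, hC2, hS⟩ := sum_inv_sq_le
  refine ⟨Real.exp (k * (C + 2 * k)) * Real.exp (k * C2), by positivity, ?_⟩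
  intro H hH w hw
  set P : ℕ → Prop := fun q => q.Prime ∧ 2 * k ≤ q with hP
  have hP' : ∀ q, P q → q.Prime := fun q h => h.1
  have hw0 : 0 ≤ w := by linarith
  have hlw : 0 < Real.log w := Real.log_pos (by linarith)
  have h1 : ∏ q ∈ pU P w, (1 - (nuH H q : ℝ) / q) ≤
      ∏ q ∈ pU P w, (Real.exp (-(k * (1 / (q : ℝ)))) *
        (if q ∣ disc H then (1 + 1 / (q : ℝ)) ^ k * Real.exp (k * (1 / (q : ℝ)) ^ 2) else 1)) := by
    apply Finset.prod_le_prod
    · intro q hq
      rw [mem_pU hP' hw0] at hq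
      have hq0 : (0 : ℝ) < q := by exact_mod_cast hq.1.1.pos
      have h2 : (nuH H q : ℝ) ≤ q := by
        have h3 := nuH_le (H := H) hq.1.1.pos
        have h4 : nuH H q ≤ q := by
          have := hq.1.2
          omega
        exact_mod_cast h4
      have := (div_le_one hq0).mpr h2
      linarith
    · intro q hq
      rw [mem_pU hP' hw0] at hq
      have hq0 : (0 : ℝ) < q := by exact_mod_cast hq.1.1.pos
      by_cases hd : q ∣ disc H
      · rw [if_pos hd]
        have h2 : (1 : ℝ) ≤ Real.exp (-(k * (1 / (q : ℝ)))) *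
            ((1 + 1 / (q : ℝ)) ^ k * Real.exp (k * (1 / (q : ℝ)) ^ 2)) := by
          have h3 := exp_le_one_add (x := 1 / (q : ℝ)) (by positivity)
          have h4 := pow_le_pow_left₀ (Real.exp_pos _).le h3 k
          rw [mul_pow, ← Real.exp_nat_mul, ← Real.exp_nat_mul] at h4
          rw [Real.exp_neg]
          rw [inv_mul_eq_div, one_le_div (Real.exp_pos _)]
          exact h4
        have h5 : (0 : ℝ) ≤ (nuH H q : ℝ) / q := by positivity
        linarith
      · rw [if_neg hd, mul_one, nuH_eq_card hq.1.1.pos hd, hH]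
        have h2 := Real.add_one_le_exp (-(k * (1 / (q : ℝ))))
        have h3 : (k : ℝ) / q = k * (1 / (q : ℝ)) := by ring
        rw [h3]
        linarith
  refine h1.trans ?_
  rw [Finset.prod_mul_distrib, ← Real.exp_sum, Finset.sum_neg_distrib, ← Finset.mul_sum]
  have h2 : Real.log (Real.log w) - C - 2 * k ≤ ∑ q ∈ pU P w, (1 / (q : ℝ)) := by
    have h3 := (abs_le.mp (hM w hw)).1
    have h4 : ∑ q ∈ primesUpTo w, (1 / (q : ℝ)) ≤
        ∑ q ∈ pU P w, (1 / (q : ℝ)) + ∑ q ∈ range (2 * k), (1 : ℝ) := by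
      have h5 : primesUpTo w ⊆ pU P w ∪ (primesUpTo w).filter (fun q => q < 2 * k) := by
        intro q hq
        rw [Finset.mem_union, mem_pU hP' hw0, Finset.mem_filter]
        have h6 := (mem_primesUpTo hw0).mp hq
        by_cases h7 : q < 2 * k
        · right; exact ⟨hq, h7⟩
        · left; exact ⟨⟨h6.1, by omega⟩, h6.2⟩
      calc ∑ q ∈ primesUpTo w, (1 / (q : ℝ)) ≤
          ∑ q ∈ pU P w ∪ (primesUpTo w).filter (fun q => q < 2 * k), (1 / (q : ℝ)) :=
            Finset.sum_le_sum_of_subset_of_nonneg h5 (fun q _ _ => by positivity)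
        _ ≤ ∑ q ∈ pU P w, (1 / (q : ℝ)) +
            ∑ q ∈ (primesUpTo w).filter (fun q => q < 2 * k), (1 / (q : ℝ)) := by
              rw [← Finset.sum_union_inter]
              have : 0 ≤ ∑ q ∈ pU P w ∩ (primesUpTo w).filter (fun q => q < 2 * k),
                  (1 / (q : ℝ)) := Finset.sum_nonneg fun q _ => by positivity
              linarith
        _ ≤ _ := by
              gcongr
              calc ∑ q ∈ (primesUpTo w).filter (fun q => q < 2 * k), (1 / (q : ℝ))
                  ≤ ∑ q ∈ (primesUpTo w).filter (fun q => q < 2 * k), (1 : ℝ) := by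
                    apply Finset.sum_le_sum
                    intro q hq
                    rw [Finset.mem_filter, mem_primesUpTo hw0] at hq
                    have : (1 : ℝ) ≤ q := by exact_mod_cast hq.1.1.one_le
                    rw [div_le_one (by linarith)]
                    exact this
                _ ≤ ∑ q ∈ range (2 * k), (1 : ℝ) := by
                    apply Finset.sum_le_sum_of_subset_of_nonneg
                    · intro q hq
                      rw [Finset.mem_filter] at hq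
                      exact Finset.mem_range.mpr hq.2
                    · intro q _ _; norm_num
    rw [Finset.sum_const, Finset.card_range, nsmul_eq_mul, mul_one] at h4
    push_cast at h4
    linarith
  have h3 : Real.exp (-(k * ∑ q ∈ pU P w, (1 / (q : ℝ)))) ≤
      Real.exp (k * (C + 2 * k)) / (Real.log w) ^ k := by
    have h5 : (Real.log w) ^ k = Real.exp (k * Real.log (Real.log w)) := by
      rw [Real.exp_nat_mul, Real.exp_log hlw]
    rw [h5, ← Real.exp_sub]
    apply Real.exp_le_exp.mpr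
    have h6 : (k : ℝ) * (Real.log (Real.log w) - C - 2 * k) ≤
        k * ∑ q ∈ pU P w, (1 / (q : ℝ)) := mul_le_mul_of_nonneg_left h2 (by positivity)
    linarith
  have h4 : ∏ q ∈ pU P w, (if q ∣ disc H then
      (1 + 1 / (q : ℝ)) ^ k * Real.exp (k * (1 / (q : ℝ)) ^ 2) else 1) ≤
      sing k (disc H) * Real.exp (k * C2) := by
    rw [← Finset.prod_filter]
    calc ∏ q ∈ (pU P w).filter (fun q => q ∣ disc H),
          (1 + 1 / (q : ℝ)) ^ k * Real.exp (k * (1 / (q : ℝ)) ^ 2) ≤
        ∏ q ∈ (disc H).primeFactors, (1 + 1 / (q : ℝ)) ^ k * Real.exp (k * (1 / (q : ℝ)) ^ 2) := by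
          apply prod_le_of_subset
          · intro q hq
            rw [Finset.mem_filter, mem_pU hP' hw0] at hq
            rw [Nat.mem_primeFactors]
            exact ⟨hq.1.1.1, hq.2, (disc_pos H).ne'⟩
          · intro q _; positivity
          · intro q _ _
            have h7 : (1 : ℝ) ≤ (1 + 1 / (q : ℝ)) ^ k := by
              apply one_le_pow₀
              have : (0 : ℝ) ≤ 1 / q := by positivity
              linarith
            have h8 : (1 : ℝ) ≤ Real.exp (k * (1 / (q : ℝ)) ^ 2) := by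
              rw [Real.one_le_exp_iff]; positivity
            nlinarith
      _ = sing k (disc H) * Real.exp (k * ∑ q ∈ (disc H).primeFactors, (1 / (q : ℝ)) ^ 2) := by
          rw [Finset.prod_mul_distrib, ← Real.exp_sum, Finset.mul_sum]
          rfl
      _ ≤ sing k (disc H) * Real.exp (k * C2) := by
          apply mul_le_mul_of_nonneg_left _ (by linarith [one_le_sing k (disc H)])
          apply Real.exp_le_exp.mpr
          exact mul_le_mul_of_nonneg_left (hS _) (by positivity)
  have h9 : 0 ≤ ∏ q ∈ pU P w, (if q ∣ disc H then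
      (1 + 1 / (q : ℝ)) ^ k * Real.exp (k * (1 / (q : ℝ)) ^ 2) else 1) := by
    apply Finset.prod_nonneg
    intro q _
    split_ifs <;> positivity
  calc _ ≤ (Real.exp (k * (C + 2 * k)) / (Real.log w) ^ k) *
        (sing k (disc H) * Real.exp (k * C2)) := by
        apply mul_le_mul h3 h4 h9
        positivity
    _ = _ := by ring

theorem log_pow_le (k : ℕ) : ∃ C : ℝ, 0 < C ∧ ∀ x : ℝ, 1 ≤ x → (Real.log x) ^ k ≤ C * x ^ (1 / 2 : ℝ) := by
  refine ⟨(2 * ((k : ℝ) + 1)) ^ k, by positivity, ?_⟩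
  intro x hx
  have hx0 : 0 ≤ x := by linarith
  have h1 := Real.log_le_rpow_div hx0 (ε := 1 / (2 * ((k : ℝ) + 1))) (by positivity)
  have h2 := pow_le_pow_left₀ (Real.log_nonneg hx) h1 k
  refine h2.trans ?_
  rw [div_pow, one_div_pow, div_div_eq_mul_div, div_one, mul_comm, ← Real.rpow_natCast (x ^ _),
    ← Real.rpow_mul hx0]
  apply mul_le_mul_of_nonneg_left _ (by positivity)
  apply Real.rpow_le_rpow_of_exponent_le hx
  rw [one_div_mul_eq_div, div_le_div_iff₀ (by positivity) (by norm_num)]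
  linarith

/-- Upper bound for prime `k`-tuples, uniform in the tuple. -/
theorem tuple_upper (k : ℕ) : ∃ C : ℝ, 0 < C ∧ ∀ H : Finset ℕ, H.card = k → ∀ N : ℕ, 2 ≤ N →
    (((range N).filter (fun n => ∀ h ∈ H, (n + h).Prime)).card : ℝ) ≤
      C * (N / (Real.log N) ^ k) * sing k (disc H) := by
  classical
  obtain ⟨K, c, hK, hc, hs⟩ := sieveK k
  obtain ⟨C1, hC1, hp⟩ := prodH_le k
  obtain ⟨C3, hC3, hL⟩ := log_pow_le k
  refine ⟨(2 * K) ^ k + 2 * C1 * (2 * K) ^ k + 3 * C3, by positivity, ?_⟩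
  intro H hH N hN
  have hN2 : (2 : ℝ) ≤ N := by exact_mod_cast hN
  have hN0 : (0 : ℝ) < N := by linarith
  have hN1 : (1 : ℝ) ≤ N := by linarith
  set L := Real.log N with hLdef
  have hL0 : 0 < L := Real.log_pos (by linarith)
  have hLk : 0 < L ^ k := pow_pos hL0 k
  have hsing := one_le_sing k (disc H)
  have hNL : 0 ≤ (N : ℝ) / L ^ k := by positivity
  rcases lt_or_ge ((N : ℝ) ^ (1 / (2 * K))) 2 with hsmall | hbig
  · have h1 : L < 2 * K := by
      have h2 : Real.log ((N : ℝ) ^ (1 / (2 * K))) < Real.log 2 :=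
        Real.log_lt_log (by positivity) hsmall
      rw [Real.log_rpow hN0] at h2
      have h3 : Real.log 2 < 1 := by
        have := Real.log_two_lt_d9; linarith
      rw [one_div_mul_eq_div, div_lt_iff₀ (by positivity)] at h2
      nlinarith
    have h4 : (((range N).filter (fun n => ∀ h ∈ H, (n + h).Prime)).card : ℝ) ≤ N := by
      have := Finset.card_filter_le (range N) (fun n => ∀ h ∈ H, (n + h).Prime)
      rw [Finset.card_range] at this
      exact_mod_cast this
    have h5 : (N : ℝ) ≤ (2 * K) ^ k * (N / L ^ k) := by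
      rw [← mul_div_assoc, le_div_iff₀ hLk, mul_comm]
      exact mul_le_mul_of_nonneg_right (pow_le_pow_left₀ hL0.le h1.le k) hN0.le
    calc _ ≤ (N : ℝ) := h4
      _ ≤ (2 * K) ^ k * (N / L ^ k) := h5
      _ ≤ ((2 * K) ^ k + 2 * C1 * (2 * K) ^ k + 3 * C3) * (N / L ^ k) := by
          apply mul_le_mul_of_nonneg_right _ hNL
          have : 0 ≤ 2 * C1 * (2 * K) ^ k + 3 * C3 := by positivity
          linarith
      _ ≤ _ := le_mul_of_one_le_right (by positivity) hsing
  · set w := (N : ℝ) ^ (1 / (2 * K)) with hw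
    have hw0 : 0 < w := by linarith
    have hlogw : Real.log w = L / (2 * K) := by
      rw [hw, Real.log_rpow hN0]; ring
    have hwK : w ^ K = (N : ℝ) ^ (1 / 2 : ℝ) := by
      rw [hw, ← Real.rpow_mul hN0.le]
      congr 1
      field_simp
    have hwle : w ≤ (N : ℝ) ^ (1 / 2 : ℝ) := by
      apply Real.rpow_le_rpow_of_exponent_le hN1
      apply one_div_le_one_div_of_le (by norm_num)
      linarith
    have h1le : (1 : ℝ) ≤ (N : ℝ) ^ (1 / 2 : ℝ) := Real.one_le_rpow hN1 (by norm_num)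
    have h1 := (hs ℕ (fun q => q.Prime ∧ 2 * k ≤ q) (fun q h => h) (fun q => (nuH H q : ℝ))
      (fun q h => ⟨by positivity, by
        have := nuH_le (H := H) h.1.pos
        rw [hH] at this
        exact_mod_cast this⟩) w hbig (range N) (fun q n => ∃ h ∈ H, q ∣ n + h) N 1 hN0.le
        zero_le_one (by
          intro I hI
          have := countH_bound H I (fun q hq => (hI q hq).1.1) N
          rw [hH] at this
          exact this)).1
    rw [hwK, one_mul] at h1
    have h2 : (((range N).filter (fun n => ∀ h ∈ H, (n + h).Prime)).card : ℝ) ≤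
        evCount (range N) (fun n => ∀ q : ℕ, (q.Prime ∧ 2 * k ≤ q) → (q : ℝ) ≤ w →
          ¬ ∃ h ∈ H, q ∣ n + h) + (w + 1) := by
      rw [evCount_eq]
      have h3 : (range N).filter (fun n => ∀ h ∈ H, (n + h).Prime) ⊆
          (range N).filter (fun n => ∀ q : ℕ, (q.Prime ∧ 2 * k ≤ q) → (q : ℝ) ≤ w →
          ¬ ∃ h ∈ H, q ∣ n + h) ∪ range (⌊w⌋₊ + 1) := by
        intro n hn
        rw [Finset.mem_filter] at hn
        rw [Finset.mem_union, Finset.mem_filter]
        by_cases hnw : n < ⌊w⌋₊ + 1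
        · right; exact Finset.mem_range.mpr hnw
        · left
          refine ⟨hn.1, ?_⟩
          rintro q hq hqw ⟨h, hh, hd⟩
          have h4 := (Nat.prime_dvd_prime_iff_eq hq.1 (hn.2 h hh)).mp hd
          have h5 : w < n := by
            have h6 := Nat.lt_floor_add_one w
            have h7 : ((⌊w⌋₊ + 1 : ℕ) : ℝ) ≤ n := by exact_mod_cast not_lt.mp hnw
            push_cast at h7
            linarith
          have h8 : (q : ℝ) = n + h := by exact_mod_cast h4
          have h9 : (0 : ℝ) ≤ h := by positivity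
          linarith
      have h4 := (Finset.card_le_card h3).trans (Finset.card_union_le _ _)
      rw [Finset.card_range] at h4
      have h5 : (((range N).filter (fun n => ∀ h ∈ H, (n + h).Prime)).card : ℝ) ≤
          (((range N).filter (fun n => ∀ q : ℕ, (q.Prime ∧ 2 * k ≤ q) → (q : ℝ) ≤ w →
          ¬ ∃ h ∈ H, q ∣ n + h)).card : ℝ) + ((⌊w⌋₊ : ℝ) + 1) := by exact_mod_cast h4
      have h6 := Nat.floor_le hw0.le
      linarith
    have h3 := hp H hH w hbig
    rw [hlogw, div_pow] at h3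
    have h4 := hL N hN1
    have h5 : (N : ℝ) ^ (1 / 2 : ℝ) ≤ C3 * (N / L ^ k) := by
      rw [← mul_div_assoc, le_div_iff₀ hLk]
      have h6 : (N : ℝ) ^ (1 / 2 : ℝ) * (N : ℝ) ^ (1 / 2 : ℝ) = N := by
        rw [← Real.rpow_add hN0]; norm_num
      calc (N : ℝ) ^ (1 / 2 : ℝ) * L ^ k ≤ (N : ℝ) ^ (1 / 2 : ℝ) * (C3 * (N : ℝ) ^ (1 / 2 : ℝ)) := by
            gcongr
        _ = C3 * ((N : ℝ) ^ (1 / 2 : ℝ) * (N : ℝ) ^ (1 / 2 : ℝ)) := by ring
        _ = C3 * N := by rw [h6]
    have h6 : 2 * (N : ℝ) * (C1 / (L ^ k / (2 * K) ^ k) * sing k (disc H)) =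
        2 * C1 * (2 * K) ^ k * (N / L ^ k) * sing k (disc H) := by
      field_simp
    have h7 : 2 * (N : ℝ) * ∏ q ∈ pU (fun q => q.Prime ∧ 2 * k ≤ q) w, (1 - (nuH H q : ℝ) / q) ≤
        2 * C1 * (2 * K) ^ k * (N / L ^ k) * sing k (disc H) := by
      rw [← h6]
      exact mul_le_mul_of_nonneg_left h3 (by positivity)
    have h8 : 3 * (N : ℝ) ^ (1 / 2 : ℝ) ≤ 3 * C3 * (N / L ^ k) * sing k (disc H) := by
      calc 3 * (N : ℝ) ^ (1 / 2 : ℝ) ≤ 3 * C3 * (N / L ^ k) := by linarith
        _ ≤ _ := le_mul_of_one_le_right (by positivity) hsing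
    have h9 : 0 ≤ (2 * K) ^ k * (N / L ^ k) * sing k (disc H) := by positivity
    calc _ ≤ _ := h2
      _ ≤ 2 * C1 * (2 * K) ^ k * (N / L ^ k) * sing k (disc H) +
          3 * C3 * (N / L ^ k) * sing k (disc H) := by linarith
      _ ≤ _ := by linarith

end Pool.Agent.Helper96.CPAP
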