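import Pool.Agent.Helper96.CPAP.SieveK

/-!
# Counting lemma for the sieve over an arithmetic progression of `k`-tuples
-/

set_option autoImplicit false

open Finset

namespace Pool.Agent.Helper96.CPAP

open Pool.Agent.Helper44

theorem count_shift {p : ℕ → Prop} [DecidablePred p] {D : ℕ} (hp : ∀ n, p (n + D) ↔ p n) (n : ℕ) :
    Nat.count (fun k => p (D + k)) n = Nat.count p n := by
  induction n with
  | zero => simp
  | succ n ih =>
    rw [Nat.count_succ, Nat.count_succ, ih]
    congr 1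
    by_cases h : p n
    · rw [if_pos h, if_pos]
      rw [add_comm]; exact (hp n).mpr h
    · rw [if_neg h, if_neg]
      rw [add_comm]; exact fun h' => h ((hp n).mp h')

theorem count_periodic {p : ℕ → Prop} [DecidablePred p] {D : ℕ} (hp : ∀ n, p (n + D) ↔ p n)
    (Q r : ℕ) : Nat.count p (Q * D + r) = Q * Nat.count p D + Nat.count p r := by
  induction Q with
  | zero => simp
  | succ Q ih =>
    have e : (Q + 1) * D + r = D + (Q * D + r) := by ring
    rw [e, Nat.count_add, count_shift hp, ih]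
    ring

theorem count_periodic_bound {p : ℕ → Prop} [DecidablePred p] {D : ℕ} (hD : 0 < D)
    (hp : ∀ n, p (n + D) ↔ p n) (N : ℕ) :
    |(Nat.count p N : ℝ) - N * ((Nat.count p D : ℝ) / D)| ≤ Nat.count p D := by
  have hN : N = N / D * D + N % D := by rw [mul_comm]; exact (Nat.div_add_mod N D).symm
  have hlt : N % D < D := Nat.mod_lt _ hD
  have h1 : Nat.count p N = N / D * Nat.count p D + Nat.count p (N % D) := by
    conv_lhs => rw [hN]
    exact count_periodic hp _ _
  have h2 : Nat.count p (N % D) ≤ Nat.count p D := Nat.count_monotone p hlt.le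
  have hD0 : (0 : ℝ) < D := by exact_mod_cast hD
  set ρ : ℝ := (Nat.count p D : ℝ) with hρ
  have hρ0 : 0 ≤ ρ := by positivity
  have h3 : (Nat.count p N : ℝ) = (N / D : ℕ) * ρ + Nat.count p (N % D) := by
    rw [h1]; push_cast; ring
  have h4 : (N : ℝ) = (N / D : ℕ) * D + (N % D : ℕ) := by exact_mod_cast hN
  have h5 : (N : ℝ) * (ρ / D) = (N / D : ℕ) * ρ + (N % D : ℕ) * (ρ / D) := by
    conv_lhs => rw [h4]
    field_simp
  rw [h3, h5]
  have h6 : ((N % D : ℕ) : ℝ) ≤ D := by exact_mod_cast hlt.le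
  have h7 : 0 ≤ ((N % D : ℕ) : ℝ) * (ρ / D) := by positivity
  have h8 : ((N % D : ℕ) : ℝ) * (ρ / D) ≤ ρ := by
    calc ((N % D : ℕ) : ℝ) * (ρ / D) ≤ D * (ρ / D) :=
          mul_le_mul_of_nonneg_right h6 (by positivity)
      _ = ρ := by field_simp
  have h9 : (Nat.count p (N % D) : ℝ) ≤ ρ := by rw [hρ]; exact_mod_cast h2
  have h10 : (0 : ℝ) ≤ Nat.count p (N % D) := by positivity
  rw [abs_le]
  constructor <;> linarith

theorem card_crt {q D : ℕ} (hco : Nat.Coprime q D) (hq : 0 < q) (hD : 0 < D) (A B : ℕ → Prop)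
    [DecidablePred A] [DecidablePred B]
    (hA : ∀ n, A (n % q) ↔ A n) (hB : ∀ n, B (n % D) ↔ B n) :
    ((range (q * D)).filter (fun n => A n ∧ B n)).card =
      ((range q).filter A).card * ((range D).filter B).card := by
  rw [← Finset.card_product]
  refine Finset.card_nbij' (fun n => (n % q, n % D))
    (fun x => (Nat.chineseRemainder hco x.1 x.2 : ℕ)) ?_ ?_ ?_ ?_
  · intro n hn
    rw [Finset.mem_coe, Finset.mem_filter, Finset.mem_range] at hn
    rw [Finset.mem_coe, Finset.mem_product, Finset.mem_filter, Finset.mem_filter, Finset.mem_range,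
      Finset.mem_range]
    exact ⟨⟨Nat.mod_lt _ hq, (hA n).mpr hn.2.1⟩, ⟨Nat.mod_lt _ hD, (hB n).mpr hn.2.2⟩⟩
  · rintro ⟨x, y⟩ hx
    rw [Finset.mem_coe, Finset.mem_product, Finset.mem_filter, Finset.mem_filter, Finset.mem_range,
      Finset.mem_range] at hx
    rw [Finset.mem_coe, Finset.mem_filter, Finset.mem_range]
    have h1 := (Nat.chineseRemainder hco x y).2
    refine ⟨Nat.chineseRemainder_lt_mul hco x y hq.ne' hD.ne', ?_, ?_⟩
    · rw [← hA, h1.1, hA]; exact hx.1.2
    · rw [← hB, h1.2, hB]; exact hx.2.2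
  · intro n hn
    rw [Finset.mem_coe, Finset.mem_filter, Finset.mem_range] at hn
    have h1 := (Nat.chineseRemainder hco (n % q) (n % D)).2
    have h2 : (Nat.chineseRemainder hco (n % q) (n % D) : ℕ) ≡ n [MOD q * D] := by
      rw [← Nat.modEq_and_modEq_iff_modEq_mul hco]
      exact ⟨h1.1.trans (Nat.mod_modEq _ _), h1.2.trans (Nat.mod_modEq _ _)⟩
    exact Nat.ModEq.eq_of_lt_of_lt h2 (Nat.chineseRemainder_lt_mul hco _ _ hq.ne' hD.ne') hn.1
  · rintro ⟨x, y⟩ hx
    rw [Finset.mem_coe, Finset.mem_product, Finset.mem_filter, Finset.mem_filter, Finset.mem_range,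
      Finset.mem_range] at hx
    have h1 := (Nat.chineseRemainder hco x y).2
    simp only [Prod.mk.injEq]
    constructor
    · rw [h1.1]; exact Nat.mod_eq_of_lt hx.1.1
    · rw [h1.2]; exact Nat.mod_eq_of_lt hx.2.1

theorem occ_mod {q M a d k : ℕ} (n : ℕ) :
    (∃ i < k, q ∣ a + M * (n % q) + i * d) ↔ (∃ i < k, q ∣ a + M * n + i * d) := by
  apply exists_congr
  intro i
  apply and_congr_right
  intro _
  have h : a + M * (n % q) + i * d ≡ a + M * n + i * d [MOD q] := by
    apply Nat.ModEq.add_right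
    apply Nat.ModEq.add_left
    exact (Nat.mod_modEq n q).mul_left M
  exact ⟨fun h' => (Nat.ModEq.dvd_iff h dvd_rfl).mp h', fun h' => (Nat.ModEq.dvd_iff h dvd_rfl).mpr h'⟩

theorem card_occ_prime {q M a d k : ℕ} (hq : q.Prime) (hM : ¬ q ∣ M) (hd : ¬ q ∣ d) (hk : k ≤ q) :
    ((range q).filter (fun n => ∃ i < k, q ∣ a + M * n + i * d)).card = k := by
  classical
  have : Fact q.Prime := ⟨hq⟩
  have hM' : (M : ZMod q) ≠ 0 := fun h => hM ((ZMod.natCast_eq_zero_iff M q).mp h)
  have hd' : (d : ZMod q) ≠ 0 := fun h => hd ((ZMod.natCast_eq_zero_iff d q).mp h)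
  set f : ℕ → ℕ := fun i => (-((a : ZMod q) + i * d) * (M : ZMod q)⁻¹).val with hf
  have key : ∀ n i : ℕ, q ∣ a + M * n + i * d ↔
      (n : ZMod q) = -((a : ZMod q) + i * d) * (M : ZMod q)⁻¹ := by
    intro n i
    rw [← ZMod.natCast_eq_zero_iff]
    push_cast
    constructor
    · intro h
      field_simp
      linear_combination h
    · intro h
      rw [h]
      field_simp
      ring
  have himg : (range q).filter (fun n => ∃ i < k, q ∣ a + M * n + i * d) = (range k).image f := by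
    ext n
    rw [Finset.mem_filter, Finset.mem_range, Finset.mem_image]
    constructor
    · rintro ⟨hn, i, hi, hdv⟩
      refine ⟨i, Finset.mem_range.mpr hi, ?_⟩
      rw [key] at hdv
      rw [hf]
      simp only
      rw [← hdv, ZMod.val_natCast, Nat.mod_eq_of_lt hn]
    · rintro ⟨i, hi, rfl⟩
      refine ⟨ZMod.val_lt _, i, Finset.mem_range.mp hi, ?_⟩
      rw [key, hf]
      simp only
      rw [ZMod.natCast_val, ZMod.cast_id]
  rw [himg, Finset.card_image_of_injOn, Finset.card_range]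
  intro i hi j hj hij
  rw [Finset.coe_range, Set.mem_Iio] at hi hj
  have h1 : (-((a : ZMod q) + i * d) * (M : ZMod q)⁻¹) = (-((a : ZMod q) + j * d) * (M : ZMod q)⁻¹) :=
    ZMod.val_injective q hij
  have h2 : (i : ZMod q) * d = (j : ZMod q) * d := by
    have h3 := mul_right_cancel₀ (inv_ne_zero hM') h1
    have h4 := neg_injective h3
    exact add_left_cancel h4
  have h3 : (i : ZMod q) = (j : ZMod q) := mul_right_cancel₀ hd' h2
  rw [ZMod.natCast_eq_natCast_iff] at h3
  exact Nat.ModEq.eq_of_lt_of_lt h3 (by omega) (by omega)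

theorem card_occ_prod {M a d k : ℕ} (I : Finset ℕ)
    (hI : ∀ q ∈ I, q.Prime ∧ ¬ q ∣ M ∧ ¬ q ∣ d ∧ k ≤ q) :
    ((range (∏ q ∈ I, q)).filter (fun n => ∀ q ∈ I, ∃ i < k, q ∣ a + M * n + i * d)).card =
      k ^ I.card := by
  classical
  induction I using Finset.induction_on with
  | empty => simp
  | insert q I hqI ih =>
    have hq := hI q (Finset.mem_insert_self _ _)
    have hI' : ∀ q ∈ I, q.Prime ∧ ¬ q ∣ M ∧ ¬ q ∣ d ∧ k ≤ q :=
      fun q' hq' => hI q' (Finset.mem_insert_of_mem hq')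
    have hco : Nat.Coprime q (∏ q ∈ I, q) := by
      apply Nat.Coprime.prod_right
      intro q' hq'
      exact (Nat.coprime_primes hq.1 (hI' q' hq').1).mpr (fun h => hqI (h ▸ hq'))
    have hpos : 0 < ∏ q ∈ I, q := Finset.prod_pos fun q' hq' => (hI' q' hq').1.pos
    rw [Finset.prod_insert hqI, Finset.card_insert_of_notMem hqI, pow_succ, mul_comm (k ^ I.card),
      ← ih hI', ← card_occ_prime (a := a) hq.1 hq.2.1 hq.2.2.1 hq.2.2.2]
    rw [← card_crt hco hq.1.pos hpos]
    · congr 1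
      apply Finset.filter_congr
      intro n _
      rw [Finset.forall_mem_insert, card_occ_prime hq.1 hq.2.1 hq.2.2.1 hq.2.2.2]
    · intro n
      exact occ_mod n
    · intro n
      apply forall₂_congr
      intro q' hq'
      apply exists_congr
      intro i
      apply and_congr_right
      intro _
      have hdvd : q' ∣ ∏ q ∈ I, q := Finset.dvd_prod_of_mem _ hq'
      have h : a + M * (n % ∏ q ∈ I, q) + i * d ≡ a + M * n + i * d [MOD q'] := by
        apply Nat.ModEq.add_right
        apply Nat.ModEq.add_left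
        exact ((Nat.mod_modEq n _).of_dvd hdvd).mul_left M
      exact ⟨fun h' => (Nat.ModEq.dvd_iff h dvd_rfl).mp h',
        fun h' => (Nat.ModEq.dvd_iff h dvd_rfl).mpr h'⟩

theorem count_bound {M a d k : ℕ} (I : Finset ℕ)
    (hI : ∀ q ∈ I, q.Prime ∧ ¬ q ∣ M ∧ ¬ q ∣ d ∧ k ≤ q) (N : ℕ) :
    |evCount (range N) (fun n => ∀ q ∈ I, ∃ i < k, q ∣ a + M * n + i * d) -
      (N : ℝ) * ∏ q ∈ I, ((k : ℝ) / q)| ≤ 1 * ((k : ℝ) + 1) ^ I.card := by
  classical
  have hpos : 0 < ∏ q ∈ I, q := Finset.prod_pos fun q' hq' => (hI q' hq').1.pos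
  have hper : ∀ n, (∀ q ∈ I, ∃ i < k, q ∣ a + M * (n + ∏ q ∈ I, q) + i * d) ↔
      (∀ q ∈ I, ∃ i < k, q ∣ a + M * n + i * d) := by
    intro n
    apply forall₂_congr
    intro q' hq'
    apply exists_congr
    intro i
    apply and_congr_right
    intro _
    have hdvd : q' ∣ ∏ q ∈ I, q := Finset.dvd_prod_of_mem _ hq'
    have h : a + M * (n + ∏ q ∈ I, q) + i * d ≡ a + M * n + i * d [MOD q'] := by
      apply Nat.ModEq.add_right
      apply Nat.ModEq.add_left
      apply Nat.ModEq.mul_left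
      have h1 : ∏ q ∈ I, q ≡ 0 [MOD q'] := (Nat.modEq_zero_iff_dvd).mpr hdvd
      simpa using h1.add_left n
    exact ⟨fun h' => (Nat.ModEq.dvd_iff h dvd_rfl).mp h',
      fun h' => (Nat.ModEq.dvd_iff h dvd_rfl).mpr h'⟩
  have h1 := count_periodic_bound (p := fun n => ∀ q ∈ I, ∃ i < k, q ∣ a + M * n + i * d)
    hpos hper N
  rw [Nat.count_eq_card_filter_range, Nat.count_eq_card_filter_range, card_occ_prod I hI] at h1
  rw [evCount_eq, Finset.prod_div_distrib, Finset.prod_const]
  push_cast at h1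
  refine h1.trans ?_
  rw [one_mul]
  exact pow_le_pow_left₀ (by positivity) (by linarith) _

end Pool.Agent.Helper96.CPAP
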