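import Pool.Agent.Helper96.CPAP.Tuple

/-!
# The singular product on average over short windows
-/

set_option autoImplicit false

open Finset

namespace Pool.Agent.Helper96.CPAP

open Pool.Agent.Helper44

theorem one_add_pow_le {x : ℝ} (h0 : 0 ≤ x) (h1 : x ≤ 1) (j : ℕ) :
    (1 + x) ^ j ≤ 1 + 2 ^ j * x := by
  have key : (1 + x) ^ j ≤ 1 + (2 ^ j - 1) * x := by
    induction j with
    | zero => simp
    | succ j ih =>
      have h2 : (1 : ℝ) ≤ 2 ^ j := one_le_pow₀ (by norm_num)
      calc (1 + x) ^ (j + 1) = (1 + x) ^ j * (1 + x) := by ring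
        _ ≤ (1 + (2 ^ j - 1) * x) * (1 + x) := mul_le_mul_of_nonneg_right ih (by linarith)
        _ ≤ 1 + (2 ^ (j + 1) - 1) * x := by
            have : 0 ≤ (2 ^ j - 1) * (x * (1 - x)) := by
              apply mul_nonneg (by linarith)
              exact mul_nonneg h0 (by linarith)
            rw [pow_succ]
            nlinarith
  linarith

/-- Primes up to `B`. -/
def pr (B : ℕ) : Finset ℕ := (Finset.range (B + 1)).filter Nat.Prime

theorem primeFactors_subset_pr {h B : ℕ} (h0 : 0 < h) (hB : h ≤ B) : h.primeFactors ⊆ pr B := by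
  intro p hp
  rw [Nat.mem_primeFactors] at hp
  rw [pr, Finset.mem_filter, Finset.mem_range]
  exact ⟨lt_of_le_of_lt (Nat.le_of_dvd h0 hp.2.1) (by omega), hp.1⟩

theorem prod_dvd_of_subset {h : ℕ} {S : Finset ℕ} (hS : S ⊆ h.primeFactors) : ∏ p ∈ S, p ∣ h := by
  exact (Finset.prod_dvd_prod_of_subset S h.primeFactors (fun p => p) hS).trans
    (Nat.prod_primeFactors_dvd h)

theorem card_dvd_window {D A B : ℕ} (hD : 0 < D) (hAB : A ≤ B) :
    (((Finset.Ioc A B).filter (fun h => D ∣ h)).card : ℝ) ≤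
      ((B : ℝ) - A) * (1 / D) + (B : ℝ) ^ (1 / 2 : ℝ) * (1 / (D : ℝ) ^ (1 / 2 : ℝ)) := by
  classical
  have hAB' : (A : ℝ) ≤ B := by exact_mod_cast hAB
  have hD0 : (0 : ℝ) < D := by exact_mod_cast hD
  rcases lt_or_ge B D with h | h
  · have : (Finset.Ioc A B).filter (fun h => D ∣ h) = ∅ := by
      rw [Finset.filter_eq_empty_iff]
      intro n hn hd
      rw [Finset.mem_Ioc] at hn
      have := Nat.le_of_dvd (by omega) hd
      omega
    rw [this]
    simp only [Finset.card_empty, Nat.cast_zero]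
    have h1 : 0 ≤ (B : ℝ) - A := by linarith
    positivity
  · have h1 : (Finset.Ioc A B).filter (fun h => D ∣ h) ⊆
        (Finset.Ioc (A / D) (B / D)).image (fun m => D * m) := by
      intro n hn
      rw [Finset.mem_filter, Finset.mem_Ioc] at hn
      obtain ⟨⟨h2, h3⟩, m, rfl⟩ := hn
      rw [Finset.mem_image]
      refine ⟨m, ?_, rfl⟩
      rw [Finset.mem_Ioc]
      constructor
      · rw [Nat.div_lt_iff_lt_mul hD, mul_comm]; exact h2
      · rw [Nat.le_div_iff_mul_le hD, mul_comm]; exact h3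
    have h2 := (Finset.card_le_card h1).trans Finset.card_image_le
    rw [Nat.card_Ioc] at h2
    have h3 : (((B / D - A / D : ℕ) : ℕ) : ℝ) ≤ ((B : ℝ) - A) * (1 / D) + 1 := by
      have h4 : A / D ≤ B / D := Nat.div_le_div_right hAB
      rw [Nat.cast_sub h4]
      have h5 : ((B / D : ℕ) : ℝ) ≤ B / D := Nat.cast_div_le
      have h6 : (A : ℝ) / D - 1 ≤ ((A / D : ℕ) : ℝ) := by
        have h7 : A < D * (A / D + 1) := Nat.lt_mul_div_succ A hD
        have h8 : (A : ℝ) < D * (((A / D : ℕ) : ℝ) + 1) := by exact_mod_cast h7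
        rw [sub_le_iff_le_add, div_le_iff₀ hD0]
        linarith
      have h9 : ((B : ℝ) - A) * (1 / D) = B / D - A / D := by ring
      rw [h9]
      linarith
    have h4 : (1 : ℝ) ≤ (B : ℝ) ^ (1 / 2 : ℝ) * (1 / (D : ℝ) ^ (1 / 2 : ℝ)) := by
      rw [mul_one_div, one_le_div (by positivity)]
      apply Real.rpow_le_rpow hD0.le _ (by norm_num)
      exact_mod_cast h
    have h5 : (((Finset.Ioc A B).filter (fun h => D ∣ h)).card : ℝ) ≤
        ((B / D - A / D : ℕ) : ℝ) := by exact_mod_cast h2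
    linarith

theorem sum_rpow_le : ∃ C : ℝ, 0 ≤ C ∧ ∀ s : Finset ℕ,
    ∑ n ∈ s, (1 / (n : ℝ)) * (1 / (n : ℝ) ^ (1 / 2 : ℝ)) ≤ C := by
  have h : Summable (fun n : ℕ => 1 / (n : ℝ) ^ (3 / 2 : ℝ)) :=
    Real.summable_one_div_nat_rpow.mpr (by norm_num)
  refine ⟨∑' n : ℕ, 1 / (n : ℝ) ^ (3 / 2 : ℝ), tsum_nonneg fun n => by positivity, ?_⟩
  intro s
  have h1 : ∀ n ∈ s, (1 / (n : ℝ)) * (1 / (n : ℝ) ^ (1 / 2 : ℝ)) ≤ 1 / (n : ℝ) ^ (3 / 2 : ℝ) := by
    intro n _
    rcases Nat.eq_zero_or_pos n with h0 | h0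
    · subst h0
      simp only [Nat.cast_zero, div_zero, zero_mul]
      positivity
    · have hn : (0 : ℝ) < n := by exact_mod_cast h0
      apply le_of_eq
      rw [one_div_mul_one_div]
      congr 1
      calc (n : ℝ) * (n : ℝ) ^ (1 / 2 : ℝ) = (n : ℝ) ^ (1 : ℝ) * (n : ℝ) ^ (1 / 2 : ℝ) := by
            rw [Real.rpow_one]
        _ = (n : ℝ) ^ (3 / 2 : ℝ) := by rw [← Real.rpow_add hn]; norm_num
  exact (Finset.sum_le_sum h1).trans (h.sum_le_tsum s (fun n _ => by positivity))

theorem prod_one_add_le {s : Finset ℕ} {f : ℕ → ℝ} {C : ℝ} (hf : ∀ n ∈ s, 0 ≤ f n)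
    (hC : ∑ n ∈ s, f n ≤ C) : ∏ n ∈ s, (1 + f n) ≤ Real.exp C := by
  calc ∏ n ∈ s, (1 + f n) ≤ ∏ n ∈ s, Real.exp (f n) := by
        apply Finset.prod_le_prod
        · intro n hn; linarith [hf n hn]
        · intro n _; linarith [Real.add_one_le_exp (f n)]
    _ = Real.exp (∑ n ∈ s, f n) := (Real.exp_sum _ _).symm
    _ ≤ _ := Real.exp_le_exp.mpr hC

/-- The singular product `∏_{p ∣ h} (1 + 1/p)^j` on average over the window `(A, B]`. -/
theorem sum_sing_window (j : ℕ) : ∃ C : ℝ, 0 < C ∧ ∀ A B : ℕ, A ≤ B →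
    ∑ h ∈ Finset.Ioc A B, sing j h ≤ C * (((B : ℝ) - A) + (B : ℝ) ^ (1 / 2 : ℝ)) := by
  classical
  obtain ⟨C2, hC2, hS2⟩ := sum_inv_sq_le
  obtain ⟨C3, hC3, hS3⟩ := sum_rpow_le
  refine ⟨Real.exp (2 ^ j * C2) + Real.exp (2 ^ j * C3), by positivity, ?_⟩
  intro A B hAB
  have hAB' : (A : ℝ) ≤ B := by exact_mod_cast hAB
  set g : Finset ℕ → ℝ := fun S => ∏ p ∈ S, (2 ^ j * (1 / (p : ℝ))) with hg
  have hg0 : ∀ S, 0 ≤ g S := fun S => Finset.prod_nonneg fun p _ => by positivity
  have h1 : ∀ h ∈ Finset.Ioc A B, sing j h ≤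
      ∑ S ∈ (pr B).powerset, if (∏ p ∈ S, p) ∣ h then g S else 0 := by
    intro h hh
    rw [Finset.mem_Ioc] at hh
    calc sing j h ≤ ∏ p ∈ h.primeFactors, (1 + 2 ^ j * (1 / (p : ℝ))) := by
          unfold sing
          apply Finset.prod_le_prod
          · intro p _; positivity
          · intro p hp
            have h2 : (1 : ℝ) ≤ p := by exact_mod_cast (Nat.prime_of_mem_primeFactors hp).one_le
            apply one_add_pow_le (by positivity)
            rw [div_le_one (by linarith)]; exact h2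
      _ = ∑ S ∈ h.primeFactors.powerset, g S := by rw [Finset.prod_one_add]
      _ = ∑ S ∈ h.primeFactors.powerset, if (∏ p ∈ S, p) ∣ h then g S else 0 := by
          apply Finset.sum_congr rfl
          intro S hS
          rw [if_pos (prod_dvd_of_subset (Finset.mem_powerset.mp hS))]
      _ ≤ _ := by
          apply Finset.sum_le_sum_of_subset_of_nonneg
          · exact Finset.powerset_mono.mpr (primeFactors_subset_pr (by omega) hh.2)
          · intro S _ _
            split_ifs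
            · exact hg0 S
            · exact le_rfl
  calc ∑ h ∈ Finset.Ioc A B, sing j h
      ≤ ∑ h ∈ Finset.Ioc A B, ∑ S ∈ (pr B).powerset, (if (∏ p ∈ S, p) ∣ h then g S else 0) :=
        Finset.sum_le_sum h1
    _ = ∑ S ∈ (pr B).powerset,
          g S * (((Finset.Ioc A B).filter (fun h => (∏ p ∈ S, p) ∣ h)).card : ℝ) := by
        rw [Finset.sum_comm]
        apply Finset.sum_congr rfl
        intro S _
        rw [← Finset.sum_filter, Finset.sum_const, nsmul_eq_mul, mul_comm]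
    _ ≤ ∑ S ∈ (pr B).powerset, (((B : ℝ) - A) * ∏ p ∈ S, (2 ^ j * (1 / (p : ℝ)) ^ 2) +
          (B : ℝ) ^ (1 / 2 : ℝ) * ∏ p ∈ S, (2 ^ j * ((1 / (p : ℝ)) * (1 / (p : ℝ) ^ (1 / 2 : ℝ))))) := by
        apply Finset.sum_le_sum
        intro S hS
        rw [Finset.mem_powerset] at hS
        have hpos : 0 < ∏ p ∈ S, p := by
          apply Finset.prod_pos
          intro p hp
          have := hS hp
          rw [pr, Finset.mem_filter] at this
          exact this.2.pos
        have h2 := mul_le_mul_of_nonneg_left (card_dvd_window hpos hAB) (hg0 S)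
        refine h2.trans (le_of_eq ?_)
        have h3 : g S * (1 / ((∏ p ∈ S, p : ℕ) : ℝ)) = ∏ p ∈ S, (2 ^ j * (1 / (p : ℝ)) ^ 2) := by
          rw [hg]
          push_cast
          rw [one_div, ← Finset.prod_inv_distrib, ← Finset.prod_mul_distrib]
          apply Finset.prod_congr rfl
          intro p _
          rw [one_div]; ring
        have h4 : g S * (1 / ((∏ p ∈ S, p : ℕ) : ℝ) ^ (1 / 2 : ℝ)) =
            ∏ p ∈ S, (2 ^ j * ((1 / (p : ℝ)) * (1 / (p : ℝ) ^ (1 / 2 : ℝ)))) := by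
          rw [hg]
          push_cast
          rw [one_div, ← Real.finsetProd_rpow _ _ (fun p _ => by positivity),
            ← Finset.prod_inv_distrib, ← Finset.prod_mul_distrib]
          apply Finset.prod_congr rfl
          intro p _
          rw [one_div ((p : ℝ) ^ _)]; ring
        rw [mul_add, mul_left_comm, h3, mul_left_comm, h4]
    _ = ((B : ℝ) - A) * ∏ p ∈ pr B, (1 + 2 ^ j * (1 / (p : ℝ)) ^ 2) +
          (B : ℝ) ^ (1 / 2 : ℝ) *
            ∏ p ∈ pr B, (1 + 2 ^ j * ((1 / (p : ℝ)) * (1 / (p : ℝ) ^ (1 / 2 : ℝ)))) := by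
        rw [Finset.sum_add_distrib, ← Finset.mul_sum, ← Finset.mul_sum, Finset.prod_one_add,
          Finset.prod_one_add]
    _ ≤ ((B : ℝ) - A) * Real.exp (2 ^ j * C2) + (B : ℝ) ^ (1 / 2 : ℝ) * Real.exp (2 ^ j * C3) := by
        apply add_le_add
        · apply mul_le_mul_of_nonneg_left _ (by linarith)
          apply prod_one_add_le (fun n _ => by positivity)
          rw [← Finset.mul_sum]
          exact mul_le_mul_of_nonneg_left (hS2 _) (by positivity)
        · apply mul_le_mul_of_nonneg_left _ (by positivity)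
          apply prod_one_add_le (fun n _ => by positivity)
          rw [← Finset.mul_sum]
          exact mul_le_mul_of_nonneg_left (hS3 _) (by positivity)
    _ ≤ _ := by
        have h5 : 0 ≤ ((B : ℝ) - A) * Real.exp (2 ^ j * C3) :=
          mul_nonneg (by linarith) (Real.exp_pos _).le
        have h6 : 0 ≤ (B : ℝ) ^ (1 / 2 : ℝ) * Real.exp (2 ^ j * C2) := by positivity
        linarith

end Pool.Agent.Helper96.CPAP
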